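import Pool.Agent.TH24.GlobMor

set_option autoImplicit false

open CategoryTheory Opposite

namespace Pool.Agent.TH24.Glob

/-- the relation defining a globular sum of sets -/
def sumRel (H : Globe Type) (T : Table) (a b : Σ k, H.D (T.top k)) : Prop :=
  ∃ (k : Fin T.m) (x : H.D (T.bot k)), a = ⟨k.castSucc, H.itσ (T.lt_left k).le x⟩ ∧
    b = ⟨k.succ, H.itτ (T.lt_right k).le x⟩

theorem isExtension_type (H : Globe Type) : H.IsExtension := by
  intro T
  refine ⟨Quot (sumRel H T), fun k => TypeCat.ofHom fun x => Quot.mk _ ⟨k, x⟩, ?_, ?_⟩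
  · intro k
    ext x
    exact Quot.sound ⟨k, x, rfl, rfl⟩
  · intro Y f hf
    refine ⟨TypeCat.ofHom (Quot.lift (fun a => f a.1 a.2) ?_), fun k => ?_, fun g hg => ?_⟩
    · rintro a b ⟨k, x, rfl, rfl⟩
      exact ConcreteCategory.congr_hom (hf k) x
    · ext x
      rfl
    · ext a
      induction a using Quot.ind with
      | mk a =>
        exact ConcreteCategory.congr_hom (hg a.1) a.2

/-- The globe in the category of sets sending `D₀` to a point and `Dᵢ` to a set with two elements
for `i ≥ 1` (the set of `0`-cells of the globe). -/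
def V : Globe Type where
  D i := match i with
    | 0 => PUnit
    | _ + 1 => Bool
  σ i := match i with
    | 0 => TypeCat.ofHom fun _ => false
    | _ + 1 => 𝟙 Bool
  τ i := match i with
    | 0 => TypeCat.ofHom fun _ => true
    | _ + 1 => 𝟙 Bool
  σσ i := match i with
    | 0 => rfl
    | _ + 1 => rfl
  ττ i := match i with
    | 0 => rfl
    | _ + 1 => rfl

theorem V_lift {i : ℕ} {X : Type} (f g : V.D i ⟶ X) (h : V.Parallel f g) :
    ∃ k, V.IsLifting f g k := by
  match i, f, g, h with
  | 0, f, g, _ =>
    refine ⟨TypeCat.ofHom fun b : Bool => bif b then g PUnit.unit else f PUnit.unit, ?_, ?_⟩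
    · ext x; rfl
    · ext x; rfl
  | 1, f, g, h =>
    have h1 : f false = g false := ConcreteCategory.congr_hom h.1 PUnit.unit
    have h2 : f true = g true := ConcreteCategory.congr_hom h.2 PUnit.unit
    have h3 : f = g := by
      ext x
      cases x
      · exact h1
      · exact h2
    subst h3
    exact ⟨f, by ext x; rfl, by ext x; rfl⟩
  | i + 2, f, g, h =>
    have h3 : f = g := h.1
    subst h3
    exact ⟨f, by ext x; rfl, by ext x; rfl⟩

end Pool.Agent.TH24.Glob
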