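import Pool.Agent.TH24.GlobLoops
import Pool.Agent.TH24.GlobSet

set_option autoImplicit false

open CategoryTheory Opposite

/-!
# The strict groupoid `BA` as an `∞`-`C`-groupoid
-/

namespace Pool.Agent.TH24.Glob

section cocycles

variable (A : Type) [Group A]

/-- the `A`-valued cocycles on the set `X`, i.e. the functors from the contractible groupoid on
`X` to the one-object groupoid `A` -/
@[ext]
structure Coc (X : Type) where
  /-- the values -/
  c : X → X → A
  /-- the cocycle condition -/
  mul : ∀ x y z, c x y * c y z = c x z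

variable {A}

/-- restriction of cocycles -/
def Coc.comap {X Y : Type} (f : X → Y) (c : Coc A Y) : Coc A X :=
  ⟨fun x y => c.c (f x) (f y), fun _ _ _ => c.mul _ _ _⟩

theorem Coc.self {X : Type} (c : Coc A X) (x : X) : c.c x x = 1 := by
  have := c.mul x x x
  simpa using this

theorem Coc.ext' {X : Type} {c d : Coc A X} (h : ∀ x y, c.c x y = d.c x y) : c = d :=
  Coc.ext (funext fun x => funext fun y => h x y)

theorem Coc.congr {X : Type} {c d : Coc A X} (h : c = d) (x y : X) : c.c x y = d.c x y := by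
  rw [h]

/-- the cocycle of a potential -/
def Coc.ofPot {X : Type} (u : X → A) : Coc A X :=
  ⟨fun x y => (u x)⁻¹ * u y, fun x y z => by group⟩

instance (i : ℕ) : Nonempty (V.D i) := by
  cases i with
  | zero => exact ⟨PUnit.unit⟩
  | succ i => exact ⟨false⟩

/-- the next potential -/
theorem next_pot {X Y Z : Type} [Nonempty Z] (s : Z → X) (t : Z → Y) (c : Coc A X) (d : Coc A Y)
    (h : c.comap s = d.comap t) (v : X → A) (hv : ∀ x y, c.c x y = (v x)⁻¹ * v y) :
    ∃ w : Y → A, (∀ x y, d.c x y = (w x)⁻¹ * w y) ∧ ∀ q, v (s q) = w (t q) := by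
  obtain ⟨p⟩ : Nonempty Z := inferInstance
  refine ⟨fun y => v (s p) * d.c (t p) y, fun x y => ?_, fun q => ?_⟩
  · dsimp only
    rw [← d.mul (t p) x y]
    group
  · have h1 : c.c (s p) (s q) = d.c (t p) (t q) := Coc.congr h p q
    dsimp only
    rw [← h1, hv]
    group

theorem exists_pot {m : ℕ} {X : Fin (m + 1) → Type} {Z : Fin m → Type} [∀ k, Nonempty (Z k)]
    [Nonempty (X 0)] (s : ∀ k, Z k → X k.castSucc) (t : ∀ k, Z k → X k.succ)
    (c : ∀ k, Coc A (X k))
    (hc : ∀ k : Fin m, (c k.castSucc).comap (s k) = (c k.succ).comap (t k)) :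
    ∃ v : ∀ k, X k → A, (∀ k x y, (c k).c x y = (v k x)⁻¹ * v k y) ∧
      ∀ k : Fin m, ∀ q : Z k, v k.castSucc (s k q) = v k.succ (t k q) := by
  have step : ∀ (k : Fin m) (v : {v : X k.castSucc → A //
      ∀ x y, (c k.castSucc).c x y = (v x)⁻¹ * v y}),
      ∃ w : {w : X k.succ → A // ∀ x y, (c k.succ).c x y = (w x)⁻¹ * w y},
        ∀ q : Z k, v.1 (s k q) = w.1 (t k q) := by
    intro k v
    obtain ⟨w, hw, hw'⟩ := next_pot (s k) (t k) _ _ (hc k) v.1 v.2
    exact ⟨⟨w, hw⟩, hw'⟩
  choose nx hnx using step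
  obtain ⟨b⟩ : Nonempty (X 0) := inferInstance
  have h0 : ∀ x y, (c 0).c x y = ((c 0).c b x)⁻¹ * (c 0).c b y := fun x y => by
    rw [← (c 0).mul b x y]
    group
  let v : ∀ k, {v : X k → A // ∀ x y, (c k).c x y = (v x)⁻¹ * v y} := fun k =>
    Fin.induction (motive := fun k => {v : X k → A // ∀ x y, (c k).c x y = (v x)⁻¹ * v y})
      ⟨fun y => (c 0).c b y, h0⟩ (fun k v => nx k v) k
  refine ⟨fun k => (v k).1, fun k => (v k).2, fun k q => ?_⟩
  have : v k.succ = nx k (v k.castSucc) := Fin.induction_succ _ _ _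
  change (v k.castSucc).1 (s k q) = (v k.succ).1 (t k q)
  rw [this]
  exact hnx k _ q

theorem coc_glue {m : ℕ} {X : Fin (m + 1) → Type} {Z : Fin m → Type} [∀ k, Nonempty (Z k)]
    [Nonempty (X 0)] (s : ∀ k, Z k → X k.castSucc) (t : ∀ k, Z k → X k.succ) {W : Type}
    (j : ∀ k, X k → W) (hj : ∀ k q, j k.castSucc (s k q) = j k.succ (t k q))
    (huniv : ∀ f : ∀ k, X k → A, (∀ k q, f k.castSucc (s k q) = f k.succ (t k q)) →
      ∃! u : W → A, ∀ k x, u (j k x) = f k x)
    (c : ∀ k, Coc A (X k))
    (hc : ∀ k : Fin m, (c k.castSucc).comap (s k) = (c k.succ).comap (t k)) :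
    ∃! d : Coc A W, ∀ k, d.comap (j k) = c k := by
  obtain ⟨v, hv, hv'⟩ := exists_pot s t c hc
  obtain ⟨u, hu, -⟩ := huniv v hv'
  refine ⟨Coc.ofPot u, fun k => Coc.ext' fun x y => ?_, fun d hd => ?_⟩
  · change (u (j k x))⁻¹ * u (j k y) = _
    rw [hu, hu, hv]
  · -- uniqueness
    obtain ⟨b⟩ : Nonempty (X 0) := inferInstance
    have key : ∀ k, ∀ x, d.c (j 0 b) (j k x) = (u (j 0 b))⁻¹ * u (j k x) := by
      intro k
      induction k using Fin.induction with
      | zero =>
        intro x
        have h1 : d.c (j 0 b) (j 0 x) = (c 0).c b x := Coc.congr (hd 0) b x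
        rw [h1, hv, hu, hu]
      | succ k ih =>
        intro x
        obtain ⟨p⟩ : Nonempty (Z k) := inferInstance
        have e := hj k p
        have h1 : d.c (j k.succ (t k p)) (j k.succ x) = (c k.succ).c (t k p) x :=
          Coc.congr (hd k.succ) _ x
        rw [← d.mul (j 0 b) (j k.succ (t k p)) (j k.succ x), h1, ← e, ih, hv, e, hu, hu, hu]
        group
    have key' : ∀ x, d.c (j 0 b) x = (u (j 0 b))⁻¹ * u x := by
      obtain ⟨w, -, hw⟩ := huniv (fun k x => d.c (j 0 b) (j k x)) (by
        intro k q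
        rw [hj])
      have h1 := hw (fun x => d.c (j 0 b) x) (fun k x => rfl)
      have h2 := hw (fun x => (u (j 0 b))⁻¹ * u x) (fun k x => (key k x).symm)
      intro x
      exact congrFun (h1.trans h2.symm) x
    apply Coc.ext'
    intro x y
    have e1 := d.mul (j 0 b) x y
    rw [key', key'] at e1
    change _ = (u x)⁻¹ * u y
    apply mul_left_cancel (a := (u (j 0 b))⁻¹ * u x)
    rw [e1]
    group

variable (A)

/-- the presheaf of cocycles on the category of sets -/
def cocFunctor : Typeᵒᵖ ⥤ Type where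
  obj X := Coc A X.unop
  map f := TypeCat.ofHom fun c => c.comap f.unop
  map_id X := rfl
  map_comp f g := rfl

end cocycles

variable {C : Type} [SmallCategory C] {G : Globe C}

/-- the `∞`-`C`-groupoid `BA` of a group `A`: its value on `S` is the set of `A`-valued cocycles on
the set of `0`-cells of `S` -/
def BA (A : Type) [Group A] (P : Mor G V) : InfGrpd G where
  obj := P.F.op ⋙ cocFunctor A
  property := by
    intro T S ι hS x hx
    have h := P.pres T ι hS
    obtain ⟨d, hd, hd'⟩ := coc_glue (A := A) (X := fun k => V.D (T.top k))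
      (fun k => V.itσ (T.lt_left k).le) (fun k => V.itτ (T.lt_right k).le)
      (fun k => (P.e (T.top k)).inv ≫ P.F.map (ι k))
      (fun k q => ConcreteCategory.congr_hom (h.compat k) q)
      (fun f hf => by
        obtain ⟨u, hu, hu'⟩ := h.desc (Y := A) (fun k => TypeCat.ofHom (f k)) (by
          intro k
          ext q
          exact hf k q)
        refine ⟨u, fun k x => ConcreteCategory.congr_hom (hu k) x, fun u' h' => ?_⟩
        have := hu' (TypeCat.ofHom u') (fun k => by ext x; exact h' k x)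
        funext x
        exact ConcreteCategory.congr_hom this x)
      (fun k => Coc.comap (P.e (T.top k)).inv (x k)) (by
      intro k
      have h1 : Coc.comap (P.F.map (G.itσ (T.lt_left k).le)) (x k.castSucc) =
        Coc.comap (P.F.map (G.itτ (T.lt_right k).le)) (x k.succ) := hx k
      have h2 := P.map_itσ (T.lt_left k).le
      have h3 := P.map_itτ (T.lt_right k).le
      change Coc.comap (V.itσ (T.lt_left k).le ≫ (P.e _).inv) (x k.castSucc) =
        Coc.comap (V.itτ (T.lt_right k).le ≫ (P.e _).inv) (x k.succ)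
      rw [h2, h3]
      exact congrArg (Coc.comap (P.e (T.bot k)).inv) h1)
    have key : ∀ (k) (d : Coc A (P.F.obj S)),
        d.comap ((P.e (T.top k)).inv ≫ P.F.map (ι k)) = Coc.comap (P.e (T.top k)).inv (x k) ↔
          d.comap (P.F.map (ι k)) = x k := by
      intro k d
      constructor
      · intro h
        have h' := congrArg (Coc.comap (P.e (T.top k)).hom) h
        change Coc.comap ((P.e (T.top k)).hom ≫ (P.e (T.top k)).inv ≫ P.F.map (ι k)) d =
          Coc.comap ((P.e (T.top k)).hom ≫ (P.e (T.top k)).inv) (x k) at h'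
        rw [Iso.hom_inv_id_assoc, Iso.hom_inv_id] at h'
        exact h'
      · intro h
        exact congrArg (Coc.comap (P.e (T.top k)).inv) h
    exact ⟨d, fun k => (key k d).1 (hd k), fun d' h' => hd' d' fun k => (key k d').2 (h' k)⟩

end Pool.Agent.TH24.Glob
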