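import Pool.Agent.TH24.GlobDefs

set_option autoImplicit false

open CategoryTheory Opposite

namespace Pool.Agent.TH24.Glob

universe v u v' u'

section

variable {C : Type u} [Category.{v} C] {G : Globe C} {E : Type u'} [Category.{v'} E] {H : Globe E}

theorem Globe.IsSum.of_iso {T : Table} {X Y : C} {ι : ∀ k, G.D (T.top k) ⟶ X} (h : G.IsSum T ι)
    (a : X ≅ Y) : G.IsSum T fun k => ι k ≫ a.hom := by
  refine ⟨fun k => ?_, fun f hf => ?_⟩
  · have := h.compat k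
    rw [← Category.assoc, ← Category.assoc, this]
  · obtain ⟨g, hg, hg'⟩ := h.desc f hf
    refine ⟨a.inv ≫ g, fun k => by simp [hg], fun g' h' => ?_⟩
    have := hg' (a.hom ≫ g') (fun k => by simpa using h' k)
    rw [← this]
    simp

/-- two globular sums for the same table are isomorphic -/
theorem Globe.IsSum.exists_iso {T : Table} {X Y : C} {ι : ∀ k, G.D (T.top k) ⟶ X}
    {κ : ∀ k, G.D (T.top k) ⟶ Y} (h : G.IsSum T ι) (h' : G.IsSum T κ) :
    ∃ a : X ≅ Y, ∀ k, ι k ≫ a.hom = κ k := by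
  obtain ⟨f, hf, -⟩ := h.desc κ h'.compat
  obtain ⟨g, hg, -⟩ := h'.desc ι h.compat
  refine ⟨⟨f, g, ?_, ?_⟩, hf⟩
  · obtain ⟨w, -, hw⟩ := h.desc ι h.compat
    rw [hw (f ≫ g) (fun k => by rw [← Category.assoc, hf, hg]), hw (𝟙 X) (fun k => by simp)]
  · obtain ⟨w, -, hw⟩ := h'.desc κ h'.compat
    rw [hw (g ≫ f) (fun k => by rw [← Category.assoc, hg, hf]), hw (𝟙 Y) (fun k => by simp)]

theorem Mor.map_σ (K : Mor G H) (i : ℕ) :
    H.σ i ≫ (K.e (i + 1)).inv = (K.e i).inv ≫ K.F.map (G.σ i) := by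
  rw [Iso.comp_inv_eq, Category.assoc, K.hσ, Iso.inv_hom_id_assoc]

theorem Mor.map_τ (K : Mor G H) (i : ℕ) :
    H.τ i ≫ (K.e (i + 1)).inv = (K.e i).inv ≫ K.F.map (G.τ i) := by
  rw [Iso.comp_inv_eq, Category.assoc, K.hτ, Iso.inv_hom_id_assoc]

theorem Globe.itσ_refl (G : Globe C) (i : ℕ) : G.itσ (le_refl i) = 𝟙 _ :=
  (Functor.ofSequence G.σ).map_id i

theorem Globe.itτ_refl (G : Globe C) (i : ℕ) : G.itτ (le_refl i) = 𝟙 _ :=
  (Functor.ofSequence G.τ).map_id i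

theorem Globe.itσ_succ (G : Globe C) {i j : ℕ} (h : i ≤ j) :
    G.itσ (h.trans (Nat.le_succ j)) = G.itσ h ≫ G.σ j := by
  have := (Functor.ofSequence G.σ).map_comp (homOfLE h) (homOfLE (Nat.le_add_right j 1))
  rw [Functor.ofSequence_map_homOfLE_succ] at this
  exact this

theorem Globe.itτ_succ (G : Globe C) {i j : ℕ} (h : i ≤ j) :
    G.itτ (h.trans (Nat.le_succ j)) = G.itτ h ≫ G.τ j := by
  have := (Functor.ofSequence G.τ).map_comp (homOfLE h) (homOfLE (Nat.le_add_right j 1))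
  rw [Functor.ofSequence_map_homOfLE_succ] at this
  exact this

theorem Mor.map_itσ (K : Mor G H) {i j : ℕ} (h : i ≤ j) :
    H.itσ h ≫ (K.e j).inv = (K.e i).inv ≫ K.F.map (G.itσ h) := by
  induction j, h using Nat.le_induction with
  | base => simp [Globe.itσ_refl]
  | succ j h ih =>
    rw [Globe.itσ_succ H h, Globe.itσ_succ G h, Category.assoc, K.map_σ, ← Category.assoc, ih]
    simp

theorem Mor.map_itτ (K : Mor G H) {i j : ℕ} (h : i ≤ j) :
    H.itτ h ≫ (K.e j).inv = (K.e i).inv ≫ K.F.map (G.itτ h) := by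
  induction j, h using Nat.le_induction with
  | base => simp [Globe.itτ_refl]
  | succ j h ih =>
    rw [Globe.itτ_succ H h, Globe.itτ_succ G h, Category.assoc, K.map_τ, ← Category.assoc, ih]
    simp

theorem Mor.parallel (K : Mor G H) {i : ℕ} {X : C} {f g : G.D i ⟶ X} (h : G.Parallel f g) :
    H.Parallel ((K.e i).inv ≫ K.F.map f) ((K.e i).inv ≫ K.F.map g) := by
  cases i with
  | zero => trivial
  | succ i =>
    refine ⟨?_, ?_⟩
    · rw [← Category.assoc, ← Category.assoc, K.map_σ, Category.assoc, Category.assoc,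
        ← K.F.map_comp, ← K.F.map_comp, h.1]
    · rw [← Category.assoc, ← Category.assoc, K.map_τ, Category.assoc, Category.assoc,
        ← K.F.map_comp, ← K.F.map_comp, h.2]

end

theorem exists_mor {C : Type} [SmallCategory C] {G : Globe C} (hG : IsCoherator G)
    {E : Type 1} [Category.{0} E] {H : Globe E} (hE : H.IsExtension)
    (hl : ∀ {i : ℕ} {X : E} (f g : H.D i ⟶ X), H.Parallel f g → ∃ h, H.IsLifting f g h) :
    Nonempty (Mor G H) := by
  obtain ⟨Cn, instC, Gn, J, I, β, h0, hext, hstep, hβ, hcol⟩ := hG.tower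
  -- the step
  have step : ∀ (n : ℕ) (K : Mor (Gn n) H), ∃ (K' : Mor (Gn (n + 1)) H)
      (α : (J n).F ⋙ K'.F ≅ K.F),
      ∀ i, α.hom.app ((Gn n).D i) ≫ (K.e i).hom = K'.F.map ((J n).e i).hom ≫ (K'.e i).hom := by
    intro n K
    obtain ⟨ι, p, h, hh, huniv⟩ := hstep n
    have hlift : ∀ a, ∃ l, IsImageLifting K (p a) l := fun a =>
      hl _ _ (K.parallel (p a).par)
    choose l hl' using hlift
    obtain ⟨⟨K', α, hα⟩, -⟩ := huniv E H hE K l hl'
    exact ⟨K', α, hα.1⟩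
  choose nK nα hnα using step
  obtain ⟨⟨K0⟩, -⟩ := h0.2 E H hE
  let K : ∀ n, Mor (Gn n) H := fun n => Nat.rec K0 (fun n K => nK n K) n
  have hK : ∀ n, K (n + 1) = nK n (K n) := fun n => rfl
  let γ : ∀ n, (J n).F ⋙ (K (n + 1)).F ≅ (K n).F := fun n => nα n (K n)
  obtain ⟨⟨L, δ, hδ⟩, -⟩ := hcol E (fun n => (K n).F) γ
  -- the isomorphisms
  let e : ∀ i, L.obj (G.D i) ≅ H.D i := fun i =>
    L.mapIso ((I 0).e i).symm ≪≫ (δ 0).app ((Gn 0).D i) ≪≫ (K 0).e i
  have hnat : ∀ {X Y : Cn 0} (f : X ⟶ Y), L.map ((I 0).F.map f) ≫ (δ 0).hom.app Y =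
      (δ 0).hom.app X ≫ (K 0).F.map f := fun f => (δ 0).hom.naturality f
  refine ⟨⟨L, e, fun i => ?_, fun i => ?_, fun T X ι hι => ?_⟩⟩
  · have h1 := (I 0).map_σ i
    calc L.map (G.σ i) ≫ (e (i + 1)).hom
        = L.map (G.σ i ≫ ((I 0).e (i + 1)).inv) ≫ (δ 0).hom.app _ ≫ ((K 0).e (i + 1)).hom := by
          simp [e]
      _ = L.map ((I 0).e i).inv ≫ (L.map ((I 0).F.map ((Gn 0).σ i)) ≫ (δ 0).hom.app _) ≫
          ((K 0).e (i + 1)).hom := by
          rw [h1]; simp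
      _ = _ := by
          rw [hnat]; simp [e, (K 0).hσ]
  · have h1 := (I 0).map_τ i
    calc L.map (G.τ i) ≫ (e (i + 1)).hom
        = L.map (G.τ i ≫ ((I 0).e (i + 1)).inv) ≫ (δ 0).hom.app _ ≫ ((K 0).e (i + 1)).hom := by
          simp [e]
      _ = L.map ((I 0).e i).inv ≫ (L.map ((I 0).F.map ((Gn 0).τ i)) ≫ (δ 0).hom.app _) ≫
          ((K 0).e (i + 1)).hom := by
          rw [h1]; simp
      _ = _ := by
          rw [hnat]; simp [e, (K 0).hτ]
  · obtain ⟨X0, ι0, h0'⟩ := hext 0 T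
    have h1 := (I 0).pres T ι0 h0'
    obtain ⟨a, ha⟩ := h1.exists_iso hι
    have h2 := (K 0).pres T ι0 h0'
    have h3 := h2.of_iso ((δ 0).symm.app X0 ≪≫ L.mapIso a)
    convert h3 using 2 with k
    rw [← ha k]
    simp only [e, Iso.trans_hom, Functor.mapIso_hom, Iso.app_hom, Iso.symm_hom, Iso.trans_inv,
      Functor.mapIso_inv, Iso.app_inv, Category.assoc, Functor.map_comp, Iso.symm_inv]
    have h4 : (K 0).F.map (ι0 k) ≫ (δ 0).inv.app X0 =
      (δ 0).inv.app _ ≫ L.map ((I 0).F.map (ι0 k)) := (δ 0).inv.naturality (ι0 k)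
    rw [← Category.assoc ((K 0).F.map (ι0 k)), h4]
    simp

end Pool.Agent.TH24.Glob
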