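import Pool.Agent.TH24.GlobGpd
import Pool.Agent.TH24.GlobMor

set_option autoImplicit false

open CategoryTheory Opposite

/-!
# Small globular sums, and the elementary operations of a coherator
-/

namespace Pool.Agent.TH24.Glob

universe v u

/-- the table of `D_a ⨿_{D_c} D_b` -/
def Table.two (a c b : ℕ) (ha : c < a) (hb : c < b) : Table where
  m := 1
  top := fun k => if k = 0 then a else b
  bot := fun _ => c
  lt_left := fun k => by
    obtain rfl : k = 0 := Subsingleton.elim _ _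
    exact ha
  lt_right := fun k => by
    obtain rfl : k = 0 := Subsingleton.elim _ _
    exact hb

/-- the table of `D_1 ⨿_{D_0} D_1 ⨿_{D_0} D_1` -/
def Table.ones : Table where
  m := 2
  top := fun _ => 1
  bot := fun _ => 0
  lt_left := fun _ => Nat.zero_lt_one
  lt_right := fun _ => Nat.zero_lt_one

variable {C : Type} [SmallCategory C] (G : Globe C)

/-- the globular sum `D_a ⨿_{D_c} D_b`, with its universal property and the property that
`∞`-`C`-groupoids send it to a fibre product -/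
structure Bin (a c b : ℕ) (ha : c < a) (hb : c < b) where
  /-- the object -/
  S : C
  /-- the left inclusion -/
  i0 : G.D a ⟶ S
  /-- the right inclusion -/
  i1 : G.D b ⟶ S
  /-- the two inclusions as a family -/
  ι : ∀ k, G.D ((Table.two a c b ha hb).top k) ⟶ S
  isSum : G.IsSum (Table.two a c b ha hb) ι
  ι0 : ι (0 : Fin 2) = i0
  ι1 : ι (1 : Fin 2) = i1
  comm : G.itσ ha.le ≫ i0 = G.itτ hb.le ≫ i1
  desc : ∀ {Y : C} (f0 : G.D a ⟶ Y) (f1 : G.D b ⟶ Y), G.itσ ha.le ≫ f0 = G.itτ hb.le ≫ f1 →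
    ∃ g : S ⟶ Y, i0 ≫ g = f0 ∧ i1 ≫ g = f1
  glue : ∀ (X : InfGrpd G) (x0 : cell X a) (x1 : cell X b),
    X.obj.map (G.itσ ha.le).op x0 = X.obj.map (G.itτ hb.le).op x1 →
    ∃ z : X.obj.obj (op S), X.obj.map i0.op z = x0 ∧ X.obj.map i1.op z = x1
  glue_unique : ∀ (X : InfGrpd G) (z z' : X.obj.obj (op S)),
    X.obj.map i0.op z = X.obj.map i0.op z' → X.obj.map i1.op z = X.obj.map i1.op z' → z = z'

theorem exists_bin (hG : G.IsExtension) (a c b : ℕ) (ha : c < a) (hb : c < b) :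
    Nonempty (Bin G a c b ha hb) := by
  obtain ⟨S, ι, h⟩ := hG (Table.two a c b ha hb)
  have h0 : (Table.two a c b ha hb).top (0 : Fin 2) = a := rfl
  have h1 : (Table.two a c b ha hb).top (1 : Fin 2) = b := rfl
  refine ⟨⟨S, ι (0 : Fin 2), ι (1 : Fin 2), ι, h, rfl, rfl, h.compat (0 : Fin 1), ?_, ?_, ?_⟩⟩
  · intro Y f0 f1 hf
    obtain ⟨g, hg, -⟩ := h.desc (Y := Y) (fun k => match k with
      | ⟨0, _⟩ => f0
      | ⟨1, _⟩ => f1) (by
        intro k
        match k with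
        | ⟨0, _⟩ => exact hf)
    exact ⟨g, hg (0 : Fin 2), hg (1 : Fin 2)⟩
  · intro X x0 x1 hx
    obtain ⟨z, hz, -⟩ := X.property (Table.two a c b ha hb) ι h (fun k => match k with
      | ⟨0, _⟩ => x0
      | ⟨1, _⟩ => x1) (by
        intro k
        match k with
        | ⟨0, _⟩ => exact hx)
    exact ⟨z, hz (0 : Fin 2), hz (1 : Fin 2)⟩
  · intro X z z' h0 h1
    obtain ⟨w, -, hw⟩ := X.property (Table.two a c b ha hb) ι h
      (fun k => X.obj.map (ι k).op z) (by
        intro k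
        have := h.compat k
        rw [← types_comp_apply, ← types_comp_apply, ← X.obj.map_comp, ← X.obj.map_comp,
          ← op_comp, ← op_comp, this])
    rw [hw z (fun k => rfl), hw z' (fun k => ?_)]
    match k with
      | ⟨0, _⟩ => exact h0.symm
      | ⟨1, _⟩ => exact h1.symm

/-- the globular sum `D_1 ⨿_{D_0} D_1 ⨿_{D_0} D_1` -/
structure Tri where
  /-- the object -/
  S : C
  /-- the left inclusion -/
  i0 : G.D 1 ⟶ S
  /-- the middle inclusion -/
  i1 : G.D 1 ⟶ S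
  /-- the right inclusion -/
  i2 : G.D 1 ⟶ S
  comm : G.σ 0 ≫ i0 = G.τ 0 ≫ i1
  comm' : G.σ 0 ≫ i1 = G.τ 0 ≫ i2
  glue : ∀ (X : InfGrpd G) (x0 x1 x2 : cell X 1), src X x0 = tgt X x1 → src X x1 = tgt X x2 →
    ∃ z : X.obj.obj (op S), X.obj.map i0.op z = x0 ∧ X.obj.map i1.op z = x1 ∧
      X.obj.map i2.op z = x2

theorem itσ_one : G.itσ (Nat.zero_le 1) = G.σ 0 :=
  (G.itσ_succ (le_refl 0)).trans (by rw [Globe.itσ_refl, Category.id_comp])

theorem itτ_one : G.itτ (Nat.zero_le 1) = G.τ 0 :=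
  (G.itτ_succ (le_refl 0)).trans (by rw [Globe.itτ_refl, Category.id_comp])

theorem exists_tri (hG : G.IsExtension) : Nonempty (Tri G) := by
  obtain ⟨S, ι, h⟩ := hG Table.ones
  have e0 := h.compat (0 : Fin 2)
  have e1 := h.compat (1 : Fin 2)
  have s : G.itσ (Table.ones.lt_left (0 : Fin 2)).le = G.σ 0 := itσ_one G
  have t : G.itτ (Table.ones.lt_right (0 : Fin 2)).le = G.τ 0 := itτ_one G
  have s' : G.itσ (Table.ones.lt_left (1 : Fin 2)).le = G.σ 0 := itσ_one G
  have t' : G.itτ (Table.ones.lt_right (1 : Fin 2)).le = G.τ 0 := itτ_one G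
  rw [s, t] at e0
  rw [s', t'] at e1
  refine ⟨⟨S, ι (0 : Fin 3), ι (1 : Fin 3), ι (2 : Fin 3), e0, e1, ?_⟩⟩
  intro X x0 x1 x2 h01 h12
  obtain ⟨z, hz, -⟩ := X.property Table.ones ι h (fun k => match k with
    | ⟨0, _⟩ => x0
    | ⟨1, _⟩ => x1
    | ⟨2, _⟩ => x2) (by
      intro k
      have h01' : X.obj.map (G.itσ (Nat.zero_le 1)).op x0 =
        X.obj.map (G.itτ (Nat.zero_le 1)).op x1 := by rw [itσ_one, itτ_one]; exact h01
      have h12' : X.obj.map (G.itσ (Nat.zero_le 1)).op x1 =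
        X.obj.map (G.itτ (Nat.zero_le 1)).op x2 := by rw [itσ_one, itτ_one]; exact h12
      match k with
      | ⟨0, _⟩ => exact h01'
      | ⟨1, _⟩ => exact h12')
  exact ⟨z, hz (0 : Fin 3), hz (1 : Fin 3), hz (2 : Fin 3)⟩

end Pool.Agent.TH24.Glob
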