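import Mathlib

/-!
# Globular extensions, Grothendieck coherators, `∞`-`C`-groupoids

Definitions following Maltsiniotis' account of Grothendieck's `∞`-groupoids.
-/

set_option autoImplicit false

open CategoryTheory Opposite

namespace Pool.Agent.TH24.Glob

universe v u v' u'

/-- A functor from the category of globes `𝔾` to `C`: objects `D i` and maps
`σ i, τ i : D i → D (i + 1)` satisfying the coglobular relations. -/
structure Globe (C : Type u) [Category.{v} C] where
  /-- the disks -/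
  D : ℕ → C
  /-- the maps `σ_{i+1} : D_i → D_{i+1}` -/
  σ : ∀ i, D i ⟶ D (i + 1)
  /-- the maps `τ_{i+1} : D_i → D_{i+1}` -/
  τ : ∀ i, D i ⟶ D (i + 1)
  /-- `σ_{i+2} σ_{i+1} = τ_{i+2} σ_{i+1}` -/
  σσ : ∀ i, σ i ≫ σ (i + 1) = σ i ≫ τ (i + 1)
  /-- `σ_{i+2} τ_{i+1} = τ_{i+2} τ_{i+1}` -/
  ττ : ∀ i, τ i ≫ σ (i + 1) = τ i ≫ τ (i + 1)

/-- The data `i_1, i'_1, i_2, …, i'_{m-1}, i_m` of a globular sum, with `i'_k < i_k, i_{k+1}`.
Here `top` lists the `i_k` and `bot` the `i'_k`. -/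
structure Table where
  /-- the number of gluings -/
  m : ℕ
  /-- the numbers `i_k` -/
  top : Fin (m + 1) → ℕ
  /-- the numbers `i'_k` -/
  bot : Fin m → ℕ
  /-- `i'_k < i_k` -/
  lt_left : ∀ k : Fin m, bot k < top k.castSucc
  /-- `i'_k < i_{k+1}` -/
  lt_right : ∀ k : Fin m, bot k < top k.succ

namespace Globe

variable {C : Type u} [Category.{v} C] (G : Globe C)

/-- The iterated source map `D_i → D_j`, `i ≤ j`. -/
def itσ {i j : ℕ} (h : i ≤ j) : G.D i ⟶ G.D j :=
  (Functor.ofSequence G.σ).map (homOfLE h)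

/-- The iterated target map `D_i → D_j`, `i ≤ j`. -/
def itτ {i j : ℕ} (h : i ≤ j) : G.D i ⟶ G.D j :=
  (Functor.ofSequence G.τ).map (homOfLE h)

/-- The family `f` of maps `D_{i_k} → X` is compatible with the gluings of the table `T`:
iterated sources into the left factor, iterated targets into the right one. -/
def Compat (T : Table) {X : C} (f : ∀ k, G.D (T.top k) ⟶ X) : Prop :=
  ∀ k : Fin T.m, G.itσ (T.lt_left k).le ≫ f k.castSucc = G.itτ (T.lt_right k).le ≫ f k.succ

/-- The object `X`, with the maps `ι k : D_{i_k} → X`, is the globular sum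
`D_{i_1} ⨿_{D_{i'_1}} D_{i_2} ⨿ ⋯ ⨿_{D_{i'_{m-1}}} D_{i_m}`. -/
structure IsSum (T : Table) {X : C} (ι : ∀ k, G.D (T.top k) ⟶ X) : Prop where
  /-- the legs are compatible -/
  compat : G.Compat T ι
  /-- the universal property -/
  desc : ∀ {Y : C} (f : ∀ k, G.D (T.top k) ⟶ Y), G.Compat T f →
    ∃! g : X ⟶ Y, ∀ k, ι k ≫ g = f k

/-- `C` is a globular extension: all globular sums exist in `C`. -/
def IsExtension : Prop :=
  ∀ T : Table, ∃ (X : C) (ι : ∀ k, G.D (T.top k) ⟶ X), G.IsSum T ι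

/-- A pair `f, g : D_i → X` is parallel: `i = 0`, or `f` and `g` agree after composition with
`σ_i` and with `τ_i`. -/
def Parallel : ∀ {i : ℕ} {X : C} (_ _ : G.D i ⟶ X), Prop
  | 0, _, _, _ => True
  | i + 1, _, f, g => G.σ i ≫ f = G.σ i ≫ g ∧ G.τ i ≫ f = G.τ i ≫ g

/-- `h : D_{i+1} → X` is a lifting of the pair `f, g : D_i → X`. -/
def IsLifting {i : ℕ} {X : C} (f g : G.D i ⟶ X) (h : G.D (i + 1) ⟶ X) : Prop :=
  G.σ i ≫ h = f ∧ G.τ i ≫ h = g

/-- A parallel pair in `C`. -/
structure Pair where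
  /-- the dimension -/
  i : ℕ
  /-- the target -/
  X : C
  /-- the first map -/
  f : G.D i ⟶ X
  /-- the second map -/
  g : G.D i ⟶ X
  /-- the two maps are parallel -/
  par : G.Parallel f g

end Globe

/-- A morphism of globular extensions: a functor under `𝔾` (the triangle commutes up to a given
isomorphism) which preserves globular sums. -/
structure Mor {C : Type u} [Category.{v} C] (G : Globe C) {E : Type u'} [Category.{v'} E]
    (H : Globe E) where
  /-- the functor -/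
  F : C ⥤ E
  /-- the isomorphisms making it a functor under `𝔾` -/
  e : ∀ i, F.obj (G.D i) ≅ H.D i
  /-- naturality -/
  hσ : ∀ i, F.map (G.σ i) ≫ (e (i + 1)).hom = (e i).hom ≫ H.σ i
  /-- naturality -/
  hτ : ∀ i, F.map (G.τ i) ≫ (e (i + 1)).hom = (e i).hom ≫ H.τ i
  /-- globular sums are preserved -/
  pres : ∀ (T : Table) {X : C} (ι : ∀ k, G.D (T.top k) ⟶ X), G.IsSum T ι →
    H.IsSum T fun k => (e (T.top k)).inv ≫ F.map (ι k)

section

variable {C : Type u} [Category.{v} C] {G : Globe C}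

/-- `G` is the universal globular extension (`Θ₀`): for every globular extension `E` there is a
morphism to `E`, and it is unique up to a unique isomorphism of functors under `𝔾`. -/
def IsUniversalExtension (G : Globe C) : Prop :=
  G.IsExtension ∧ ∀ (E : Type 1) [Category.{0} E] (H : Globe E), H.IsExtension →
    Nonempty (Mor G H) ∧ ∀ K L : Mor G H,
      ∃! α : K.F ≅ L.F, ∀ i, α.hom.app (G.D i) ≫ (L.e i).hom = (K.e i).hom

variable {E : Type u'} [Category.{v'} E] {H : Globe E}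

/-- `h` is a lifting in `E` of the image under the morphism `K` of the parallel pair `p`. -/
def IsImageLifting (K : Mor G H) (p : G.Pair) (h : H.D (p.i + 1) ⟶ K.F.obj p.X) : Prop :=
  H.IsLifting ((K.e p.i).inv ≫ K.F.map p.f) ((K.e p.i).inv ≫ K.F.map p.g) h

end

section

variable {C : Type u} [Category.{v} C] {G : Globe C} {C' : Type u} [Category.{v} C']
  {G' : Globe C'}

/-- The isomorphism `α` makes `K'` an extension of `K` along `J`, which sends the chosen lifting
`h a` to the chosen lifting `l a`. -/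
def IsExtensionOf (J : Mor G G') {I : Type} (p : I → G.Pair)
    (h : ∀ a, G'.D ((p a).i + 1) ⟶ J.F.obj (p a).X)
    {E : Type 1} [Category.{0} E] {H : Globe E} (K : Mor G H)
    (l : ∀ a, H.D ((p a).i + 1) ⟶ K.F.obj (p a).X) (K' : Mor G' H)
    (α : J.F ⋙ K'.F ≅ K.F) : Prop :=
  (∀ i, α.hom.app (G.D i) ≫ (K.e i).hom = K'.F.map (J.e i).hom ≫ (K'.e i).hom) ∧
  ∀ a, l a = (K'.e _).inv ≫ K'.F.map (h a) ≫ α.hom.app (p a).X

/-- `C'` is obtained from `C`, via `J : C → C'`, by universally adjoining liftings of some family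
of parallel pairs of `C`: there are a family `p` of parallel pairs and liftings `h` in `C'` of
their images, and for every morphism `K` from `C` to a globular extension `E` and all liftings `l`
in `E` of the images of the pairs there is a morphism `K'` from `C'` to `E` extending `K` which
sends `h` to `l`; this extension is unique up to a unique isomorphism. -/
def IsFreeStep (J : Mor G G') : Prop :=
  ∃ (I : Type) (p : I → G.Pair) (h : ∀ a, G'.D ((p a).i + 1) ⟶ J.F.obj (p a).X),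
    (∀ a, IsImageLifting J (p a) (h a)) ∧
    ∀ (E : Type 1) [Category.{0} E] (H : Globe E), H.IsExtension →
      ∀ (K : Mor G H) (l : ∀ a, H.D ((p a).i + 1) ⟶ K.F.obj (p a).X),
        (∀ a, IsImageLifting K (p a) (l a)) →
        (∃ (K' : Mor G' H) (α : J.F ⋙ K'.F ≅ K.F), IsExtensionOf J p h K l K' α) ∧
        ∀ (K' : Mor G' H) (α : J.F ⋙ K'.F ≅ K.F) (K'' : Mor G' H) (α' : J.F ⋙ K''.F ≅ K.F),
          IsExtensionOf J p h K l K' α → IsExtensionOf J p h K l K'' α' →
          ∃! β : K'.F ≅ K''.F, ∀ X, β.hom.app (J.F.obj X) ≫ α'.hom.app X = α.hom.app X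

end

/-- The category `C` is the colimit `lim_→ Cₙ` of the tower `C₀ → C₁ → ⋯`, with respect to the
functors `I n : Cₙ → C` and the isomorphisms `β n : J n ⋙ I (n + 1) ≅ I n`. -/
def IsTowerColimit {Cn : ℕ → Type} [∀ n, SmallCategory (Cn n)] (J : ∀ n, Cn n ⥤ Cn (n + 1))
    {C : Type} [SmallCategory C] (I : ∀ n, Cn n ⥤ C) (β : ∀ n, J n ⋙ I (n + 1) ≅ I n) : Prop :=
  ∀ (E : Type 1) [Category.{0} E] (K : ∀ n, Cn n ⥤ E) (γ : ∀ n, J n ⋙ K (n + 1) ≅ K n),
    (∃ (L : C ⥤ E) (δ : ∀ n, I n ⋙ L ≅ K n), ∀ n X,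
      L.map ((β n).hom.app X) ≫ (δ n).hom.app X =
        (δ (n + 1)).hom.app ((J n).obj X) ≫ (γ n).hom.app X) ∧
    ∀ (L : C ⥤ E) (δ : ∀ n, I n ⋙ L ≅ K n) (L' : C ⥤ E) (δ' : ∀ n, I n ⋙ L' ≅ K n),
      (∀ n X, L.map ((β n).hom.app X) ≫ (δ n).hom.app X =
        (δ (n + 1)).hom.app ((J n).obj X) ≫ (γ n).hom.app X) →
      (∀ n X, L'.map ((β n).hom.app X) ≫ (δ' n).hom.app X =
        (δ' (n + 1)).hom.app ((J n).obj X) ≫ (γ n).hom.app X) →
      ∃! ε : L ≅ L', ∀ n X, ε.hom.app ((I n).obj X) ≫ (δ' n).hom.app X = (δ n).hom.app X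

/-- `C`, with `G : 𝔾 → C`, is a Grothendieck coherator. -/
structure IsCoherator {C : Type} [SmallCategory C] (G : Globe C) : Prop where
  /-- `C` is a globular extension -/
  ext : G.IsExtension
  /-- (a) every parallel pair has a lifting -/
  lift : ∀ {i : ℕ} {X : C} (f g : G.D i ⟶ X), G.Parallel f g → ∃ h, G.IsLifting f g h
  /-- (b) `C` is the colimit of a tower `Θ₀ = C₀ → C₁ → ⋯` of small globular extensions, in which
  `Cₙ₊₁` is obtained from `Cₙ` by universally adjoining liftings of a family of parallel pairs -/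
  tower : ∃ (Cn : ℕ → Type) (_ : ∀ n, SmallCategory (Cn n)) (Gn : ∀ n, Globe (Cn n))
    (J : ∀ n, Mor (Gn n) (Gn (n + 1))) (I : ∀ n, Mor (Gn n) G)
    (β : ∀ n, (J n).F ⋙ (I (n + 1)).F ≅ (I n).F),
    IsUniversalExtension (Gn 0) ∧ (∀ n, (Gn n).IsExtension) ∧ (∀ n, IsFreeStep (J n)) ∧
    (∀ n i, (β n).hom.app ((Gn n).D i) ≫ ((I n).e i).hom =
      (I (n + 1)).F.map ((J n).e i).hom ≫ ((I (n + 1)).e i).hom) ∧
    IsTowerColimit (fun n => (J n).F) (fun n => (I n).F) β

end Pool.Agent.TH24.Glob
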