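import Pool.Agent.TH24.GlobDefs

set_option autoImplicit false

open CategoryTheory Opposite

/-!
# `∞`-`C`-groupoids and their weak equivalences
-/

namespace Pool.Agent.TH24.Glob

variable {C : Type} [SmallCategory C] (G : Globe C)

/-- The presheaf `X` on `C` is an `∞`-`C`-groupoid: it sends globular sums to the corresponding
iterated fibre products. -/
def IsInfGroupoid : ObjectProperty (Cᵒᵖ ⥤ Type) := fun X =>
  ∀ (T : Table) {S : C} (ι : ∀ k, G.D (T.top k) ⟶ S), G.IsSum T ι →
    ∀ x : ∀ k, X.obj (op (G.D (T.top k))),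
      (∀ k : Fin T.m, X.map (G.itσ (T.lt_left k).le).op (x k.castSucc) =
        X.map (G.itτ (T.lt_right k).le).op (x k.succ)) →
      ∃! y : X.obj (op S), ∀ k, X.map (ι k).op y = x k

/-- The category of `∞`-`C`-groupoids. -/
abbrev InfGrpd := (IsInfGroupoid G).FullSubcategory

section

variable {G}

/-- the set `X_i = X(D_i)` of `i`-cells -/
abbrev cell (X : InfGrpd G) (i : ℕ) : Type := X.obj.obj (op (G.D i))

/-- the source of a cell -/
abbrev src (X : InfGrpd G) {i : ℕ} (x : cell X (i + 1)) : cell X i := X.obj.map (G.σ i).op x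

/-- the target of a cell -/
abbrev tgt (X : InfGrpd G) {i : ℕ} (x : cell X (i + 1)) : cell X i := X.obj.map (G.τ i).op x

/-- Two `i`-cells are homotopic if some `(i+1)`-cell has source `x` and target `y`. -/
def Homotopic (X : InfGrpd G) {i : ℕ} (x y : cell X i) : Prop :=
  ∃ h : cell X (i + 1), src X h = x ∧ tgt X h = y

/-- `π₀(X) = X_0 / ∼` -/
def Pi0 (X : InfGrpd G) : Type := Quot (Homotopic X (i := 0))

/-- A choice of liftings `κ_i : D_{i+1} → D_i` of the parallel pairs `(id, id)`; they supply the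
units. -/
structure Units (G : Globe C) where
  /-- the liftings -/
  κ : ∀ i, G.D (i + 1) ⟶ G.D i
  /-- they are liftings of `(id, id)` -/
  lift : ∀ i, G.IsLifting (𝟙 (G.D i)) (𝟙 (G.D i)) (κ i)

/-- the iterated unit on the object `x` -/
def unit (κ : Units G) (X : InfGrpd G) (x : cell X 0) : ∀ i, cell X i
  | 0 => x
  | i + 1 => X.obj.map (κ.κ i).op (unit κ X x i)

/-- The (underlying set of the) group `π_{i+1}(X; x)`: homotopy classes of `(i+1)`-cells whose
source and target are the iterated unit on `x`. -/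
def PiSucc (κ : Units G) (X : InfGrpd G) (x : cell X 0) (i : ℕ) : Type :=
  Quot fun a b : {a : cell X (i + 1) // src X a = unit κ X x i ∧ tgt X a = unit κ X x i} =>
    Homotopic X a.1 b.1

/-- the action of a morphism on cells -/
abbrev onCell {X Y : InfGrpd G} (f : X ⟶ Y) {i : ℕ} (x : cell X i) : cell Y i :=
  f.hom.app (op (G.D i)) x

theorem onCell_map {X Y : InfGrpd G} (f : X ⟶ Y) {S S' : C} (u : S ⟶ S') (x : X.obj.obj (op S')) :
    f.hom.app (op S) (X.obj.map u.op x) = Y.obj.map u.op (f.hom.app (op S') x) :=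
  NatTrans.naturality_apply f.hom u.op x

theorem onCell_homotopic {X Y : InfGrpd G} (f : X ⟶ Y) {i : ℕ} {x y : cell X i}
    (h : Homotopic X x y) : Homotopic Y (onCell f x) (onCell f y) := by
  obtain ⟨k, rfl, rfl⟩ := h
  exact ⟨onCell f k, (onCell_map f _ _).symm, (onCell_map f _ _).symm⟩

theorem onCell_unit (κ : Units G) {X Y : InfGrpd G} (f : X ⟶ Y) (x : cell X 0) (i : ℕ) :
    onCell f (unit κ X x i) = unit κ Y (onCell f x) i := by
  induction i with
  | zero => rfl
  | succ i ih =>
    exact (onCell_map f (κ.κ i) (unit κ X x i)).trans (congrArg (Y.obj.map (κ.κ i).op) ih)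

/-- the map `π₀(f)` -/
def pi0Map {X Y : InfGrpd G} (f : X ⟶ Y) : Pi0 X → Pi0 Y :=
  Quot.map (onCell f) fun _ _ h => onCell_homotopic f h

/-- the map `π_{i+1}(f; x)` -/
def piSuccMap (κ : Units G) {X Y : InfGrpd G} (f : X ⟶ Y) (x : cell X 0) (i : ℕ) :
    PiSucc κ X x i → PiSucc κ Y (onCell f x) i :=
  Quot.map (fun a => ⟨onCell f a.1,
      ((onCell_map f (G.σ i) a.1).symm.trans (congrArg (onCell f) a.2.1)).trans
        (onCell_unit κ f x i),
      ((onCell_map f (G.τ i) a.1).symm.trans (congrArg (onCell f) a.2.2)).trans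
        (onCell_unit κ f x i)⟩)
    fun _ _ h => onCell_homotopic f h

/-- A morphism of `∞`-`C`-groupoids is a weak equivalence if it induces bijections on `π₀` and on
all `π_i(-; x)`, `i ≥ 1`. -/
def weakEq (κ : Units G) : MorphismProperty (InfGrpd G) := fun _ _ f =>
  Function.Bijective (pi0Map f) ∧ ∀ x i, Function.Bijective (piSuccMap κ f x i)

end

end Pool.Agent.TH24.Glob
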