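import Pool.Agent.TH24.GlobPi

set_option autoImplicit false

open CategoryTheory Opposite

/-!
# Free loops invert weak equivalences
-/

namespace Pool.Agent.TH24.Glob

/-! ### loops in a groupoid -/

section groupoid

/-- conjugacy of loops in a groupoid -/
def Conj (A : Type) [Groupoid A] (a b : Σ x : A, x ⟶ x) : Prop :=
  ∃ p : a.1 ⟶ b.1, a.2 ≫ p = p ≫ b.2

/-- conjugacy classes of loops in a groupoid -/
def Loops (A : Type) [Groupoid A] : Type := Quot (Conj A)

theorem conj_equivalence (A : Type) [Groupoid A] : Equivalence (Conj A) := by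
  refine ⟨fun a => ⟨𝟙 _, by simp⟩, ?_, ?_⟩
  · rintro a b ⟨p, hp⟩
    refine ⟨Groupoid.inv p, ?_⟩
    rw [← cancel_epi p, ← Category.assoc, ← hp]
    simp
  · rintro a b c ⟨p, hp⟩ ⟨q, hq⟩
    refine ⟨p ≫ q, ?_⟩
    rw [← Category.assoc, hp, Category.assoc, hq, Category.assoc]

theorem loops_exact {A : Type} [Groupoid A] {a b : Σ x : A, x ⟶ x}
    (h : (Quot.mk _ a : Loops A) = Quot.mk _ b) : Conj A a b :=
  ((conj_equivalence A).eqvGen_iff).1 (Quot.eqvGen_exact h)

/-- the map on loops induced by a functor -/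
def loopsMap {A B : Type} [Groupoid A] [Groupoid B] (F : A ⥤ B) : Loops A → Loops B :=
  Quot.map (fun a => ⟨F.obj a.1, F.map a.2⟩) (by
    rintro a b ⟨p, hp⟩
    exact ⟨F.map p, by rw [← F.map_comp, ← F.map_comp, hp]⟩)

theorem loopsMap_bijective {A B : Type} [Groupoid A] [Groupoid B] (F : A ⥤ B)
    (h0 : ∀ y : B, ∃ x : A, Nonempty (F.obj x ⟶ y))
    (h0' : ∀ x x' : A, Nonempty (F.obj x ⟶ F.obj x') → Nonempty (x ⟶ x'))
    (h1 : ∀ x : A, Function.Bijective (F.map : (x ⟶ x) → (F.obj x ⟶ F.obj x))) :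
    Function.Bijective (loopsMap F) := by
  constructor
  · intro a b h
    induction a using Quot.ind with | mk a => ?_
    induction b using Quot.ind with | mk b => ?_
    obtain ⟨x, a⟩ := a
    obtain ⟨x', b⟩ := b
    obtain ⟨q, hq⟩ := loops_exact h
    dsimp only at q hq
    obtain ⟨p⟩ := h0' x x' ⟨q⟩
    obtain ⟨r, hr⟩ := (h1 x).2 (q ≫ Groupoid.inv (F.map p))
    have hq' : q = F.map (r ≫ p) := by
      rw [F.map_comp, hr]
      simp
    refine Quot.sound ⟨r ≫ p, ?_⟩
    have : a = (r ≫ p) ≫ b ≫ Groupoid.inv (r ≫ p) := by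
      apply (h1 x).1
      have h2 : F.map a ≫ F.map (r ≫ p) = F.map (r ≫ p) ≫ F.map b := by
        rw [← hq']
        exact hq
      rw [F.map_comp (r ≫ p), F.map_comp b, ← Category.assoc, ← h2, Category.assoc, ← F.map_comp]
      simp
    dsimp only
    conv_lhs => rw [this]
    simp
  · intro b
    induction b using Quot.ind with | mk b => ?_
    obtain ⟨y, b⟩ := b
    obtain ⟨x, ⟨p⟩⟩ := h0 y
    obtain ⟨a, ha⟩ := (h1 x).2 (p ≫ b ≫ Groupoid.inv p)
    refine ⟨Quot.mk _ ⟨x, a⟩, Quot.sound ⟨p, ?_⟩⟩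
    dsimp only
    rw [ha]
    simp

end groupoid

variable {C : Type} [SmallCategory C] {G : Globe C}

/-- the objects of the fundamental groupoid of `X` -/
@[ext]
structure Pi1 (hG : IsCoherator G) (O : Ops G) (X : InfGrpd G) where
  /-- the underlying `0`-cell -/
  pt : cell X 0

/-- the arrows of the fundamental groupoid of `X` -/
def Pi1Hom (X : InfGrpd G) (x y : cell X 0) : Type :=
  Quot fun a b : {a : cell X 1 // src X a = x ∧ tgt X a = y} => Homotopic X a.1 b.1

theorem pi1Hom_exact (hG : IsCoherator G) {X : InfGrpd G} {x y : cell X 0}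
    {a b : {a : cell X 1 // src X a = x ∧ tgt X a = y}}
    (h : (Quot.mk _ a : Pi1Hom X x y) = Quot.mk _ b) : Homotopic X a.1 b.1 := by
  have hE : Equivalence fun a b : {a : cell X 1 // src X a = x ∧ tgt X a = y} =>
      Homotopic X a.1 b.1 :=
    ⟨fun a => homotopic_refl hG X a.1, fun h => homotopic_symm hG X h,
      fun h h' => homotopic_trans hG X h h'⟩
  exact (hE.eqvGen_iff).1 (Quot.eqvGen_exact h)

section

variable (hG : IsCoherator G) (O : Ops G) (X : InfGrpd G)

/-- composition in the fundamental groupoid -/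
noncomputable def pi1Comp (x y z : cell X 0) : Pi1Hom X x y → Pi1Hom X y z → Pi1Hom X x z :=
  Quot.map₂ (fun b a => ⟨O.cmp X a.1 b.1 (a.2.1.trans b.2.2.symm),
      (O.src_cmp X _ _ _).trans b.2.1, (O.tgt_cmp X _ _ _).trans a.2.2⟩)
    (fun _ _ _ h => O.cmp_left X hG h _) (fun _ _ _ h => O.cmp_right X hG h _)

/-- identities in the fundamental groupoid -/
def pi1Id (x : cell X 0) : Pi1Hom X x x := Quot.mk _ ⟨O.one X x, O.src_one X _, O.tgt_one X _⟩

include hG in
/-- inverses in the fundamental groupoid -/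
def pi1Inv (x y : cell X 0) : Pi1Hom X x y → Pi1Hom X y x :=
  Quot.map (fun a => ⟨O.inv X a.1, (O.src_inv X _).trans a.2.2,
    (O.tgt_inv X _).trans a.2.1⟩) (fun _ _ h => O.inv_congr X hG h)

theorem pi1_id_comp (x y : cell X 0) (f : Pi1Hom X x y) :
    pi1Comp hG O X x x y (pi1Id O X x) f = f := by
  induction f using Quot.ind with | mk f => ?_
  obtain ⟨f, rfl, rfl⟩ := f
  exact Quot.sound (O.comp_one X hG f)

theorem pi1_comp_id (x y : cell X 0) (f : Pi1Hom X x y) :
    pi1Comp hG O X x y y f (pi1Id O X y) = f := by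
  induction f using Quot.ind with | mk f => ?_
  obtain ⟨f, rfl, rfl⟩ := f
  exact Quot.sound (O.one_comp X hG f)

theorem pi1_assoc (x y z w : cell X 0) (f : Pi1Hom X x y) (g : Pi1Hom X y z)
    (h : Pi1Hom X z w) :
    pi1Comp hG O X x z w (pi1Comp hG O X x y z f g) h =
      pi1Comp hG O X x y w f (pi1Comp hG O X y z w g h) := by
  induction f using Quot.ind with | mk f => ?_
  induction g using Quot.ind with | mk g => ?_
  induction h using Quot.ind with | mk h => ?_
  exact Quot.sound (homotopic_symm hG X (O.assoc X hG h.1 g.1 f.1 _ _))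

theorem pi1_inv_comp (x y : cell X 0) (f : Pi1Hom X x y) :
    pi1Comp hG O X y x y (pi1Inv hG O X x y f) f = pi1Id O X y := by
  induction f using Quot.ind with | mk f => ?_
  obtain ⟨f, rfl, rfl⟩ := f
  exact Quot.sound (O.comp_inv X hG f)

theorem pi1_comp_inv (x y : cell X 0) (f : Pi1Hom X x y) :
    pi1Comp hG O X x y x f (pi1Inv hG O X x y f) = pi1Id O X x := by
  induction f using Quot.ind with | mk f => ?_
  obtain ⟨f, rfl, rfl⟩ := f
  exact Quot.sound (O.inv_comp X hG f)

noncomputable instance : Groupoid (Pi1 hG O X) where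
  Hom x y := Pi1Hom X x.pt y.pt
  id x := pi1Id O X x.pt
  comp f g := pi1Comp hG O X _ _ _ f g
  id_comp f := pi1_id_comp hG O X _ _ f
  comp_id f := pi1_comp_id hG O X _ _ f
  assoc f g h := pi1_assoc hG O X _ _ _ _ f g h
  inv f := pi1Inv hG O X _ _ f
  inv_comp f := pi1_inv_comp hG O X _ _ f
  comp_inv f := pi1_comp_inv hG O X _ _ f

variable {X}

/-- the map induced on arrows -/
def pi1HomMap {Y : InfGrpd G} (f : X ⟶ Y) (x y : cell X 0) :
    Pi1Hom X x y → Pi1Hom Y (onCell f x) (onCell f y) :=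
  Quot.map (fun a => ⟨onCell f a.1,
      (onCell_map f _ _).symm.trans (congrArg (onCell f) a.2.1),
      (onCell_map f _ _).symm.trans (congrArg (onCell f) a.2.2)⟩)
    (fun _ _ h => onCell_homotopic f h)

theorem pi1HomMap_id {Y : InfGrpd G} (f : X ⟶ Y) (x : cell X 0) :
    pi1HomMap f x x (pi1Id O X x) = pi1Id O Y (onCell f x) :=
  congrArg (Quot.mk _) (Subtype.ext (O.onCell_one f x))

theorem pi1HomMap_comp {Y : InfGrpd G} (f : X ⟶ Y) (x y z : cell X 0) (a : Pi1Hom X x y)
    (b : Pi1Hom X y z) :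
    pi1HomMap f x z (pi1Comp hG O X x y z a b) =
      pi1Comp hG O Y _ _ _ (pi1HomMap f x y a) (pi1HomMap f y z b) := by
  induction a using Quot.ind with | mk a => ?_
  induction b using Quot.ind with | mk b => ?_
  exact congrArg (Quot.mk _) (Subtype.ext (O.onCell_cmp f _ _ _ _))

/-- the functor induced on fundamental groupoids -/
noncomputable def pi1Map {Y : InfGrpd G} (f : X ⟶ Y) : Pi1 hG O X ⥤ Pi1 hG O Y where
  obj x := ⟨onCell f x.pt⟩
  map {x y} a := pi1HomMap f x.pt y.pt a
  map_id x := pi1HomMap_id O f x.pt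
  map_comp a b := pi1HomMap_comp hG O f _ _ _ a b

/-- two `0`-cells in the same class are joined by an arrow -/
theorem pi0_exact {x y : cell X 0} (h : (Quot.mk _ x : Pi0 X) = Quot.mk _ y) :
    Nonempty ((⟨x⟩ : Pi1 hG O X) ⟶ ⟨y⟩) := by
  have hE : Equivalence (Homotopic X (i := 0)) :=
    ⟨fun a => homotopic_refl hG X a, fun h => homotopic_symm hG X h,
      fun h h' => homotopic_trans hG X h h'⟩
  obtain ⟨k, h1, h2⟩ := (hE.eqvGen_iff).1 (Quot.eqvGen_exact h)
  exact ⟨Quot.mk _ ⟨k, h1, h2⟩⟩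

theorem pi0_sound {x y : Pi1 hG O X} (h : Nonempty (x ⟶ y)) :
    (Quot.mk _ x.pt : Pi0 X) = Quot.mk _ y.pt := by
  obtain ⟨a⟩ := h
  induction a using Quot.ind with | mk a => ?_
  exact Quot.sound ⟨a.1, a.2⟩

theorem loopsMap_bijective_of_weakEq (κ : Units G) {Y : InfGrpd G} (f : X ⟶ Y)
    (hf : weakEq κ f) : Function.Bijective (loopsMap (pi1Map hG O f)) := by
  refine loopsMap_bijective _ ?_ ?_ ?_
  · rintro ⟨y⟩
    obtain ⟨x, hx⟩ := hf.1.2 (Quot.mk _ y)
    induction x using Quot.ind with | mk x => ?_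
    exact ⟨⟨x⟩, pi0_exact hG O hx⟩
  · intro x x' h
    exact pi0_exact hG O (hf.1.1 (pi0_sound hG O h))
  · intro x
    exact hf.2 x.pt 0

/-- the functor of free loops -/
noncomputable def loopsFunctor : InfGrpd G ⥤ Type where
  obj X := Loops (Pi1 hG O X)
  map f := TypeCat.ofHom (loopsMap (pi1Map hG O f))
  map_id X := by
    ext a
    induction a using Quot.ind with | mk a => ?_
    obtain ⟨x, a⟩ := a
    change Pi1Hom X x.pt x.pt at a
    induction a using Quot.ind with | mk a => ?_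
    rfl
  map_comp f g := by
    ext a
    induction a using Quot.ind with | mk a => ?_
    obtain ⟨x, a⟩ := a
    change Pi1Hom _ x.pt x.pt at a
    induction a using Quot.ind with | mk a => ?_
    rfl

theorem loopsFunctor_inverts (κ : Units G) :
    (weakEq κ : MorphismProperty (InfGrpd G)).IsInvertedBy (loopsFunctor hG O) := by
  intro X Y f hf
  rw [isIso_iff_bijective]
  exact loopsMap_bijective_of_weakEq hG O κ f hf

end

end Pool.Agent.TH24.Glob
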