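import Pool.Agent.TH24.GlobPoint

set_option autoImplicit false

open CategoryTheory Opposite

/-!
# The precise form of the homotopy hypothesis fails
-/

namespace Pool.Agent.TH24.Glob

variable {C : Type} [SmallCategory C] {G : Globe C}

section

variable {A : Type} [Group A] {P : Mor G V} (hG : IsCoherator G) (F : Mor G disks)

/-- the adjunction between presheaves and spaces -/
noncomputable def adj : (uliftYoneda.{0}).leftKanExtension F.F ⊣
    Presheaf.restrictedULiftYoneda.{0} F.F :=
  Presheaf.uliftYonedaAdjunction.{0} _ ((uliftYoneda.{0}).leftKanExtensionUnit F.F)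

theorem evalAt_adj {X : Cᵒᵖ ⥤ Type} {Y : TopCat.{0}}
    (u : ((uliftYoneda.{0}).leftKanExtension F.F).obj X ⟶ Y) (S : C) (z : X.obj (op S)) :
    evalAt F ((adj F).homEquiv X Y u) S z = ((uliftYoneda.{0}).leftKanExtensionUnit F.F).app S ≫
      ((uliftYoneda.{0}).leftKanExtension F.F).map (uliftYonedaEquiv.symm z) ≫ u := by
  have := Presheaf.uliftYonedaAdjunction_homEquiv_app.{0}
    ((uliftYoneda.{0}).leftKanExtension F.F) ((uliftYoneda.{0}).leftKanExtensionUnit F.F) u z
  exact congrArg ULift.down this

theorem classifying_nonempty (X : InfGrpd G) (z : cell X 0) : Nonempty ((classifying F).obj X) :=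
  ⟨(((uliftYoneda.{0}).leftKanExtensionUnit F.F).app (G.D 0) ≫
      ((uliftYoneda.{0}).leftKanExtension F.F).map (uliftYonedaEquiv.symm z)) (x0 F)⟩

include hG in
theorem classifying_BA_const {Y : TopCat.{0}} (u : (classifying F).obj (BA A P) ⟶ Y) :
    ∃ y0 : Y, ∀ x, u x = y0 := by
  refine ⟨evalAt F ((adj F).homEquiv _ _ u) (G.D 0) z0 (x0 F), ?_⟩
  set y0 := evalAt F ((adj F).homEquiv _ _ u) (G.D 0) z0 (x0 F)
  let c : (classifying F).obj (BA A P) ⟶ Y := TopCat.ofHom (ContinuousMap.const _ y0)
  have h : u = c := by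
    apply ((adj F).homEquiv _ _).injective
    apply NatTrans.ext
    funext S
    obtain ⟨S⟩ := S
    apply ConcreteCategory.hom_ext
    intro z
    apply ULift.ext
    change evalAt F ((adj F).homEquiv _ _ u) S z = evalAt F ((adj F).homEquiv _ _ c) S z
    ext x : 1
    rw [eval_const hG F _ S z x, evalAt_adj]
    rfl
  intro x
  rw [h]
  rfl

include hG in
theorem classifying_BA_subsingleton (p q : (classifying F).obj (BA A P)) : p = q := by
  classical
  obtain ⟨y, hy⟩ := classifying_BA_const hG F (A := A) (P := P)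
    (toIndisc fun x => decide (x = p))
  have h1 : decide (p = p) = decide (q = p) := (hy p).trans (hy q).symm
  have h2 : q = p := by simpa using h1.symm
  exact h2.symm

include hG in
/-- **The classifying space of `BA` is a point.** -/
theorem classifying_BA : Nonempty ((classifying F).obj (BA A P) ≅ TopCat.of PUnit) := by
  obtain ⟨p⟩ := classifying_nonempty F (BA A P) z0
  refine ⟨⟨TopCat.ofHom ⟨fun _ => PUnit.unit, continuous_const⟩,
    TopCat.ofHom ⟨fun _ => p, continuous_const⟩, ?_, ?_⟩⟩
  · ext x
    exact classifying_BA_subsingleton hG F _ _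
  · ext x

end

theorem to_point_eq {X : TopCat.{0}} (x y : X ⟶ TopCat.of PUnit) : x = y := by
  ext

theorem loops_point_subsingleton (hG : IsCoherator G) (O : Ops G) (F : Mor G disks)
    (a b : Loops (Pi1 hG O ((fundamental F).obj (TopCat.of PUnit)))) : a = b := by
  have hs : ∀ (S : C) (x y : ((fundamental F).obj (TopCat.of PUnit)).obj.obj (op S)), x = y := by
    intro S x y
    exact to_point_eq (X := F.F.obj S) x y
  induction a using Quot.ind with | mk a => ?_
  induction b using Quot.ind with | mk b => ?_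
  obtain ⟨⟨x⟩, a⟩ := a
  obtain ⟨⟨y⟩, b⟩ := b
  obtain rfl := hs _ x y
  congr 2
  change Pi1Hom _ x x at a b
  induction a using Quot.ind with | mk a => ?_
  induction b using Quot.ind with | mk b => ?_
  exact congrArg (Quot.mk _) (Subtype.ext (hs _ _ _))

/-- **Part (i) of the precise homotopy hypothesis fails**, for every coherator `C`, every choice of
units and every extension `F`. -/
theorem not_induceEquivalence (hG : IsCoherator G) (κ : Units G) (F : Mor G disks) :
    ¬ InduceEquivalence (weakEq κ) weakHomotopyEq (classifying F) (fundamental F) := by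
  rintro ⟨-, -, R, P', ⟨e1⟩, ⟨e2⟩, ⟨e3⟩, -⟩
  obtain ⟨P⟩ := exists_mor hG (isExtension_type V) V_lift
  obtain ⟨O⟩ := exists_ops hG
  let A := Multiplicative (ZMod 2)
  let W : MorphismProperty (InfGrpd G) := weakEq κ
  obtain ⟨e⟩ := classifying_BA (A := A) (P := P) hG F
  -- `BA` and the fundamental groupoid of the point are isomorphic in the localised category
  let i : W.Q.obj (BA A P) ≅ W.Q.obj ((fundamental F).obj (TopCat.of PUnit)) :=
    (e3.app (W.Q.obj (BA A P))).symm ≪≫ P'.mapIso (e1.app (BA A P)) ≪≫
      P'.mapIso (weakHomotopyEq.Q.mapIso e) ≪≫ e2.app (TopCat.of PUnit)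
  let Φ : W.Localization ⥤ Type := Localization.lift (loopsFunctor hG O)
    (loopsFunctor_inverts hG O κ) W.Q
  let j : W.Q ⋙ Φ ≅ loopsFunctor hG O := Localization.fac _ _ _
  let k : (loopsFunctor hG O).obj (BA A P) ≅
      (loopsFunctor hG O).obj ((fundamental F).obj (TopCat.of PUnit)) :=
    (j.app _).symm ≪≫ Φ.mapIso i ≪≫ j.app _
  have hinj : Function.Injective k.hom := ((isIso_iff_bijective k.hom).1 inferInstance).1
  obtain ⟨a, ha⟩ := valLoops_surjective (A := A) (P := P) hG O 1
  obtain ⟨b, hb⟩ := valLoops_surjective (A := A) (P := P) hG O (Multiplicative.ofAdd 1)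
  have hab : a = b := hinj (loops_point_subsingleton hG O F _ _)
  rw [hab, hb] at ha
  exact absurd ha (by decide)

end Pool.Agent.TH24.Glob
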