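import Pool.Agent.TH24.GlobBin

set_option autoImplicit false

open CategoryTheory Opposite

/-!
# The fundamental groupoid of an `∞`-`C`-groupoid and its free loops
-/

namespace Pool.Agent.TH24.Glob

variable {C : Type} [SmallCategory C] {G : Globe C}

/-- parallel maps out of `D_1` give homotopic `1`-cells -/
theorem homotopic_of_parallel (hG : IsCoherator G) (X : InfGrpd G) {i : ℕ} {S : C}
    {u v : G.D i ⟶ S} (h : G.Parallel u v) (z : X.obj.obj (op S)) :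
    Homotopic X (X.obj.map u.op z) (X.obj.map v.op z) := by
  obtain ⟨k, h1, h2⟩ := hG.lift u v h
  refine ⟨X.obj.map k.op z, ?_, ?_⟩
  · rw [src, ← types_comp_apply, ← X.obj.map_comp, ← op_comp, h1]
  · rw [tgt, ← types_comp_apply, ← X.obj.map_comp, ← op_comp, h2]

theorem map_map (X : InfGrpd G) {R S T : C} (u : R ⟶ S) (v : S ⟶ T) (z : X.obj.obj (op T)) :
    X.obj.map u.op (X.obj.map v.op z) = X.obj.map (u ≫ v).op z := by
  rw [← types_comp_apply, ← X.obj.map_comp, ← op_comp]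

theorem map_id' (X : InfGrpd G) {S : C} (z : X.obj.obj (op S)) :
    X.obj.map (𝟙 S).op z = z := by
  rw [op_id, X.obj.map_id, types_id_apply]

theorem src_homotopic (X : InfGrpd G) {i : ℕ} {a b : cell X (i + 1)} (h : Homotopic X a b) :
    src X a = src X b := by
  obtain ⟨k, rfl, rfl⟩ := h
  rw [src, src, src, tgt, map_map, map_map, G.σσ]

theorem tgt_homotopic (X : InfGrpd G) {i : ℕ} {a b : cell X (i + 1)} (h : Homotopic X a b) :
    tgt X a = tgt X b := by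
  obtain ⟨k, rfl, rfl⟩ := h
  rw [tgt, tgt, src, tgt, map_map, map_map, G.ττ]

theorem homotopic_refl (hG : IsCoherator G) (X : InfGrpd G) {i : ℕ} (a : cell X i) :
    Homotopic X a a := by
  have : G.Parallel (𝟙 (G.D i)) (𝟙 (G.D i)) := by
    cases i with
    | zero => trivial
    | succ i => exact ⟨rfl, rfl⟩
  have h := homotopic_of_parallel hG X this a
  rwa [map_id'] at h

theorem homotopic_symm (hG : IsCoherator G) (X : InfGrpd G) {i : ℕ} {a b : cell X i}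
    (h : Homotopic X a b) : Homotopic X b a := by
  obtain ⟨k, rfl, rfl⟩ := h
  have : G.Parallel (G.τ i) (G.σ i) := by
    cases i with
    | zero => trivial
    | succ i => exact ⟨(G.σσ i).symm, (G.ττ i).symm⟩
  exact homotopic_of_parallel hG X this k

theorem itσ_succ_self (G : Globe C) (i : ℕ) : G.itσ (Nat.le_succ i) = G.σ i :=
  (G.itσ_succ (le_refl i)).trans (by rw [Globe.itσ_refl, Category.id_comp])

theorem itτ_succ_self (G : Globe C) (i : ℕ) : G.itτ (Nat.le_succ i) = G.τ i :=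
  (G.itτ_succ (le_refl i)).trans (by rw [Globe.itτ_refl, Category.id_comp])

theorem homotopic_trans (hG : IsCoherator G) (X : InfGrpd G) {i : ℕ} {a b c : cell X i}
    (h : Homotopic X a b) (h' : Homotopic X b c) : Homotopic X a c := by
  obtain ⟨k, rfl, rfl⟩ := h
  obtain ⟨l, h1, rfl⟩ := h'
  obtain ⟨B⟩ := exists_bin G hG.ext (i + 1) i (i + 1) (Nat.lt_succ_self i) (Nat.lt_succ_self i)
  have hc := B.comm
  have e1 : G.itσ (Nat.lt_succ_self i).le = G.σ i := itσ_succ_self G i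
  have e2 : G.itτ (Nat.lt_succ_self i).le = G.τ i := itτ_succ_self G i
  rw [e1, e2] at hc
  obtain ⟨z, hz0, hz1⟩ := B.glue X l k (by rw [e1, e2]; exact h1)
  have : G.Parallel (G.σ i ≫ B.i1) (G.τ i ≫ B.i0) := by
    cases i with
    | zero => trivial
    | succ i =>
      refine ⟨?_, ?_⟩
      · rw [← Category.assoc, G.σσ, Category.assoc, ← hc, ← Category.assoc, G.σσ, Category.assoc]
      · rw [← Category.assoc, G.ττ, Category.assoc, ← hc, ← Category.assoc, G.ττ, Category.assoc]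
  have h := homotopic_of_parallel hG X this z
  rwa [← map_map, ← map_map, hz0, hz1] at h

/-- the elementary operations of a coherator in dimension one -/
structure Ops (G : Globe C) where
  /-- the globular sum -/
  B : Bin G 1 0 1 Nat.zero_lt_one Nat.zero_lt_one
  /-- the composition -/
  m : G.D 1 ⟶ B.S
  /-- the unit -/
  k : G.D 1 ⟶ G.D 0
  /-- the inverse -/
  w : G.D 1 ⟶ G.D 1
  σm : G.σ 0 ≫ m = G.σ 0 ≫ B.i1
  τm : G.τ 0 ≫ m = G.τ 0 ≫ B.i0
  σk : G.σ 0 ≫ k = 𝟙 _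
  τk : G.τ 0 ≫ k = 𝟙 _
  σw : G.σ 0 ≫ w = G.τ 0
  τw : G.τ 0 ≫ w = G.σ 0

theorem exists_ops (hG : IsCoherator G) : Nonempty (Ops G) := by
  obtain ⟨B⟩ := exists_bin G hG.ext 1 0 1 Nat.zero_lt_one Nat.zero_lt_one
  obtain ⟨m, h1, h2⟩ := hG.lift (G.σ 0 ≫ B.i1) (G.τ 0 ≫ B.i0) trivial
  obtain ⟨k, h3, h4⟩ := hG.lift (𝟙 (G.D 0)) (𝟙 (G.D 0)) trivial
  obtain ⟨w, h5, h6⟩ := hG.lift (G.τ 0) (G.σ 0) trivial
  exact ⟨⟨B, m, k, w, h1, h2, h3, h4, h5, h6⟩⟩

namespace Ops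

variable (O : Ops G)

theorem comm : G.σ 0 ≫ O.B.i0 = G.τ 0 ≫ O.B.i1 := by
  have := O.B.comm
  rwa [show G.itσ Nat.zero_lt_one.le = G.σ 0 from itσ_one G,
    show G.itτ Nat.zero_lt_one.le = G.τ 0 from itτ_one G] at this

/-- composite of two maps out of `D_1` -/
theorem exists_cmpC {S : C} (f g : G.D 1 ⟶ S) (h : G.σ 0 ≫ f = G.τ 0 ≫ g) :
    ∃ d : O.B.S ⟶ S, O.B.i0 ≫ d = f ∧ O.B.i1 ≫ d = g :=
  O.B.desc f g (by
    rwa [show G.itσ Nat.zero_lt_one.le = G.σ 0 from itσ_one G,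
      show G.itτ Nat.zero_lt_one.le = G.τ 0 from itτ_one G])

/-- the induced map -/
noncomputable def dsc {S : C} (f g : G.D 1 ⟶ S) (h : G.σ 0 ≫ f = G.τ 0 ≫ g) : O.B.S ⟶ S :=
  (O.exists_cmpC f g h).choose

theorem i0_dsc {S : C} (f g : G.D 1 ⟶ S) (h : G.σ 0 ≫ f = G.τ 0 ≫ g) :
    O.B.i0 ≫ O.dsc f g h = f := (O.exists_cmpC f g h).choose_spec.1

theorem i1_dsc {S : C} (f g : G.D 1 ⟶ S) (h : G.σ 0 ≫ f = G.τ 0 ≫ g) :
    O.B.i1 ≫ O.dsc f g h = g := (O.exists_cmpC f g h).choose_spec.2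

/-- composite of two maps out of `D_1` -/
noncomputable def cmpC {S : C} (f g : G.D 1 ⟶ S) (h : G.σ 0 ≫ f = G.τ 0 ≫ g) : G.D 1 ⟶ S :=
  O.m ≫ O.dsc f g h

theorem σ_cmpC {S : C} (f g : G.D 1 ⟶ S) (h : G.σ 0 ≫ f = G.τ 0 ≫ g) :
    G.σ 0 ≫ O.cmpC f g h = G.σ 0 ≫ g := by
  rw [cmpC, ← Category.assoc, O.σm, Category.assoc, O.i1_dsc]

theorem τ_cmpC {S : C} (f g : G.D 1 ⟶ S) (h : G.σ 0 ≫ f = G.τ 0 ≫ g) :
    G.τ 0 ≫ O.cmpC f g h = G.τ 0 ≫ f := by
  rw [cmpC, ← Category.assoc, O.τm, Category.assoc, O.i0_dsc]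

variable (X : InfGrpd G)

theorem exists_glue (a b : cell X 1) (h : src X a = tgt X b) :
    ∃ z : X.obj.obj (op O.B.S), X.obj.map O.B.i0.op z = a ∧ X.obj.map O.B.i1.op z = b :=
  O.B.glue X a b (by
    rwa [show G.itσ Nat.zero_lt_one.le = G.σ 0 from itσ_one G,
      show G.itτ Nat.zero_lt_one.le = G.τ 0 from itτ_one G])

/-- the glued cell -/
noncomputable def gl (a b : cell X 1) (h : src X a = tgt X b) : X.obj.obj (op O.B.S) :=
  (O.exists_glue X a b h).choose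

theorem i0_gl (a b : cell X 1) (h : src X a = tgt X b) :
    X.obj.map O.B.i0.op (O.gl X a b h) = a := (O.exists_glue X a b h).choose_spec.1

theorem i1_gl (a b : cell X 1) (h : src X a = tgt X b) :
    X.obj.map O.B.i1.op (O.gl X a b h) = b := (O.exists_glue X a b h).choose_spec.2

/-- the composite of two `1`-cells -/
noncomputable def cmp (a b : cell X 1) (h : src X a = tgt X b) : cell X 1 :=
  X.obj.map O.m.op (O.gl X a b h)

/-- the inverse of a `1`-cell -/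
def inv (a : cell X 1) : cell X 1 := X.obj.map O.w.op a

/-- the unit on a `0`-cell -/
def one (x : cell X 0) : cell X 1 := X.obj.map O.k.op x

theorem src_cmp (a b : cell X 1) (h : src X a = tgt X b) :
    src X (O.cmp X a b h) = src X b := by
  conv_rhs => rw [← O.i1_gl X a b h]
  rw [src, src, cmp, map_map, map_map, O.σm]

theorem tgt_cmp (a b : cell X 1) (h : src X a = tgt X b) :
    tgt X (O.cmp X a b h) = tgt X a := by
  conv_rhs => rw [← O.i0_gl X a b h]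
  rw [tgt, tgt, cmp, map_map, map_map, O.τm]

theorem src_inv (a : cell X 1) : src X (O.inv X a) = tgt X a := by
  rw [src, tgt, inv, map_map, O.σw]

theorem tgt_inv (a : cell X 1) : tgt X (O.inv X a) = src X a := by
  rw [src, tgt, inv, map_map, O.τw]

theorem src_one (x : cell X 0) : src X (O.one X x) = x := by
  rw [src, one, map_map, O.σk, map_id']

theorem tgt_one (x : cell X 0) : tgt X (O.one X x) = x := by
  rw [tgt, one, map_map, O.τk, map_id']

theorem map_cmpC {S : C} (f g : G.D 1 ⟶ S) (h : G.σ 0 ≫ f = G.τ 0 ≫ g) (z : X.obj.obj (op S))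
    (h' : src X (X.obj.map f.op z) = tgt X (X.obj.map g.op z)) :
    X.obj.map (O.cmpC f g h).op z = O.cmp X (X.obj.map f.op z) (X.obj.map g.op z) h' := by
  rw [cmpC, ← map_map, cmp]
  congr 1
  apply O.B.glue_unique
  · rw [map_map, O.i0_dsc, O.i0_gl]
  · rw [map_map, O.i1_dsc, O.i1_gl]

theorem hsrc {S : C} {f g : G.D 1 ⟶ S} (h : G.σ 0 ≫ f = G.τ 0 ≫ g) (z : X.obj.obj (op S)) :
    src X (X.obj.map f.op z) = tgt X (X.obj.map g.op z) := by
  rw [src, tgt, map_map, map_map, h]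

theorem cmp_congr {a a' b b' : cell X 1} (ha : a = a') (hb : b = b') (h : src X a = tgt X b) :
    O.cmp X a b h = O.cmp X a' b' (by rw [← ha, ← hb, h]) := by
  subst ha hb
  rfl

section laws

variable (hG : IsCoherator G)
include hG

theorem comp_one (a : cell X 1) :
    Homotopic X (O.cmp X a (O.one X (src X a)) (O.tgt_one X _).symm) a := by
  have hc : G.σ 0 ≫ 𝟙 _ = G.τ 0 ≫ (O.k ≫ G.σ 0) := by
    rw [← Category.assoc, O.τk, Category.comp_id, Category.id_comp]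
  have hp : G.Parallel (O.cmpC (𝟙 _) (O.k ≫ G.σ 0) hc) (𝟙 _) := by
    refine ⟨?_, ?_⟩
    · rw [O.σ_cmpC, ← Category.assoc, O.σk, Category.comp_id, Category.id_comp]
    · rw [O.τ_cmpC]
  have h := homotopic_of_parallel hG X hp a
  rw [O.map_cmpC X _ _ hc a (hsrc X hc a),
    O.cmp_congr X (map_id' X a) (map_map X O.k (G.σ 0) a).symm] at h
  exact (congrArg (Homotopic X _) (map_id' X a)).mp h

theorem one_comp (a : cell X 1) :
    Homotopic X (O.cmp X (O.one X (tgt X a)) a (O.src_one X _)) a := by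
  have hc : G.σ 0 ≫ (O.k ≫ G.τ 0) = G.τ 0 ≫ 𝟙 _ := by
    rw [← Category.assoc, O.σk, Category.comp_id, Category.id_comp]
  have hp : G.Parallel (O.cmpC (O.k ≫ G.τ 0) (𝟙 _) hc) (𝟙 _) := by
    refine ⟨?_, ?_⟩
    · rw [O.σ_cmpC]
    · rw [O.τ_cmpC, ← Category.assoc, O.τk, Category.comp_id, Category.id_comp]
  have h := homotopic_of_parallel hG X hp a
  rw [O.map_cmpC X _ _ hc a (hsrc X hc a),
    O.cmp_congr X (map_map X O.k (G.τ 0) a).symm (map_id' X a)] at h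
  exact (congrArg (Homotopic X _) (map_id' X a)).mp h

theorem inv_comp (a : cell X 1) :
    Homotopic X (O.cmp X (O.inv X a) a (O.src_inv X a)) (O.one X (src X a)) := by
  have hc : G.σ 0 ≫ O.w = G.τ 0 ≫ 𝟙 _ := by rw [O.σw, Category.comp_id]
  have hp : G.Parallel (O.cmpC O.w (𝟙 _) hc) (O.k ≫ G.σ 0) := by
    refine ⟨?_, ?_⟩
    · rw [O.σ_cmpC, ← Category.assoc, O.σk, Category.comp_id, Category.id_comp]
    · rw [O.τ_cmpC, ← Category.assoc, O.τk, Category.id_comp, O.τw]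
  have h := homotopic_of_parallel hG X hp a
  rw [O.map_cmpC X _ _ hc a (hsrc X hc a)] at h
  rwa [O.cmp_congr X rfl (map_id' X a), ← map_map] at h

theorem comp_inv (a : cell X 1) :
    Homotopic X (O.cmp X a (O.inv X a) (O.tgt_inv X a).symm) (O.one X (tgt X a)) := by
  have hc : G.σ 0 ≫ 𝟙 _ = G.τ 0 ≫ O.w := by rw [O.τw, Category.comp_id]
  have hp : G.Parallel (O.cmpC (𝟙 _) O.w hc) (O.k ≫ G.τ 0) := by
    refine ⟨?_, ?_⟩
    · rw [O.σ_cmpC, ← Category.assoc, O.σk, Category.id_comp, O.σw]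
    · rw [O.τ_cmpC, ← Category.assoc, O.τk, Category.comp_id, Category.id_comp]
  have h := homotopic_of_parallel hG X hp a
  rw [O.map_cmpC X _ _ hc a (hsrc X hc a)] at h
  rwa [O.cmp_congr X (map_id' X a) rfl, ← map_map] at h

theorem assoc (a b c : cell X 1) (hab : src X a = tgt X b) (hbc : src X b = tgt X c) :
    Homotopic X (O.cmp X (O.cmp X a b hab) c ((O.src_cmp X a b hab).trans hbc))
      (O.cmp X a (O.cmp X b c hbc) (hab.trans (O.tgt_cmp X b c hbc).symm)) := by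
  obtain ⟨T⟩ := exists_tri G hG.ext
  obtain ⟨z, rfl, rfl, rfl⟩ := T.glue X a b c hab hbc
  have h1 : G.σ 0 ≫ O.cmpC T.i0 T.i1 T.comm = G.τ 0 ≫ T.i2 := by rw [O.σ_cmpC, T.comm']
  have h2 : G.σ 0 ≫ T.i0 = G.τ 0 ≫ O.cmpC T.i1 T.i2 T.comm' := by rw [O.τ_cmpC, T.comm]
  have hp : G.Parallel (O.cmpC _ _ h1) (O.cmpC _ _ h2) := by
    refine ⟨?_, ?_⟩
    · rw [O.σ_cmpC, O.σ_cmpC, O.σ_cmpC]
    · rw [O.τ_cmpC, O.τ_cmpC, O.τ_cmpC]
  have h := homotopic_of_parallel hG X hp z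
  rw [O.map_cmpC X _ _ h1 z (hsrc X h1 z), O.map_cmpC X _ _ h2 z (hsrc X h2 z),
    O.cmp_congr X (O.map_cmpC X _ _ T.comm z hab) rfl,
    O.cmp_congr X rfl (O.map_cmpC X _ _ T.comm' z hbc)] at h
  exact h

theorem cmp_left {a a' b : cell X 1} (h : Homotopic X a a') (hab : src X a = tgt X b) :
    Homotopic X (O.cmp X a b hab) (O.cmp X a' b ((src_homotopic X h).symm.trans hab)) := by
  obtain ⟨k, rfl, rfl⟩ := h
  obtain ⟨B⟩ := exists_bin G hG.ext 2 0 1 (by norm_num) Nat.zero_lt_one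
  have e1 : G.itσ (show 0 < 2 by norm_num).le = G.σ 0 ≫ G.σ 1 :=
    (G.itσ_succ (Nat.zero_le 1)).trans (by rw [itσ_one])
  have e2 : G.itτ Nat.zero_lt_one.le = G.τ 0 := itτ_one G
  have hc := B.comm
  rw [e1, e2] at hc
  obtain ⟨z, rfl, rfl⟩ := B.glue X k b (by
    rw [e1, e2, ← map_map]
    exact hab)
  have c1 : G.σ 0 ≫ (G.σ 1 ≫ B.i0) = G.τ 0 ≫ B.i1 := by rw [← Category.assoc, hc]
  have c2 : G.σ 0 ≫ (G.τ 1 ≫ B.i0) = G.τ 0 ≫ B.i1 := by
    rw [← Category.assoc, ← G.σσ, hc]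
  have hp : G.Parallel (O.cmpC _ _ c1) (O.cmpC _ _ c2) := by
    refine ⟨?_, ?_⟩
    · rw [O.σ_cmpC, O.σ_cmpC]
    · rw [O.τ_cmpC, O.τ_cmpC, ← Category.assoc, G.ττ, Category.assoc]
  have h := homotopic_of_parallel hG X hp z
  rw [O.map_cmpC X _ _ c1 z (hsrc X c1 z), O.map_cmpC X _ _ c2 z (hsrc X c2 z),
    O.cmp_congr X (map_map X (G.σ 1) B.i0 z).symm rfl,
    O.cmp_congr X (map_map X (G.τ 1) B.i0 z).symm rfl] at h
  exact h

theorem cmp_right {a b b' : cell X 1} (h : Homotopic X b b') (hab : src X a = tgt X b) :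
    Homotopic X (O.cmp X a b hab) (O.cmp X a b' (hab.trans (tgt_homotopic X h))) := by
  obtain ⟨k, rfl, rfl⟩ := h
  obtain ⟨B⟩ := exists_bin G hG.ext 1 0 2 Nat.zero_lt_one (by norm_num)
  have e1 : G.itσ Nat.zero_lt_one.le = G.σ 0 := itσ_one G
  have e2 : G.itτ (show 0 < 2 by norm_num).le = G.τ 0 ≫ G.τ 1 :=
    (G.itτ_succ (Nat.zero_le 1)).trans (by rw [itτ_one])
  have hc := B.comm
  rw [e1, e2] at hc
  obtain ⟨z, rfl, rfl⟩ := B.glue X a k (by
    rw [e1, e2, ← map_map]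
    refine hab.trans ?_
    rw [tgt, src, map_map, map_map, G.ττ])
  have c1 : G.σ 0 ≫ B.i0 = G.τ 0 ≫ (G.σ 1 ≫ B.i1) := by
    rw [hc, ← Category.assoc, G.ττ]
  have c2 : G.σ 0 ≫ B.i0 = G.τ 0 ≫ (G.τ 1 ≫ B.i1) := by
    rw [hc, ← Category.assoc]
  have hp : G.Parallel (O.cmpC _ _ c1) (O.cmpC _ _ c2) := by
    refine ⟨?_, ?_⟩
    · rw [O.σ_cmpC, O.σ_cmpC, ← Category.assoc, G.σσ, Category.assoc]
    · rw [O.τ_cmpC, O.τ_cmpC]
  have h := homotopic_of_parallel hG X hp z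
  rw [O.map_cmpC X _ _ c1 z (hsrc X c1 z), O.map_cmpC X _ _ c2 z (hsrc X c2 z),
    O.cmp_congr X rfl (map_map X (G.σ 1) B.i1 z).symm,
    O.cmp_congr X rfl (map_map X (G.τ 1) B.i1 z).symm] at h
  exact h

theorem inv_congr {a a' : cell X 1} (h : Homotopic X a a') :
    Homotopic X (O.inv X a) (O.inv X a') := by
  obtain ⟨k, rfl, rfl⟩ := h
  have hp : G.Parallel (O.w ≫ G.σ 1) (O.w ≫ G.τ 1) := by
    refine ⟨?_, ?_⟩
    · rw [← Category.assoc, ← Category.assoc, O.σw, G.ττ]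
    · rw [← Category.assoc, ← Category.assoc, O.τw, G.σσ]
  have h := homotopic_of_parallel hG X hp k
  rwa [← map_map, ← map_map] at h

end laws

theorem onCell_cmp {X Y : InfGrpd G} (f : X ⟶ Y) (a b : cell X 1) (h : src X a = tgt X b)
    (h' : src Y (onCell f a) = tgt Y (onCell f b)) :
    onCell f (O.cmp X a b h) = O.cmp Y (onCell f a) (onCell f b) h' := by
  rw [cmp, onCell, onCell_map, cmp]
  congr 1
  apply O.B.glue_unique
  · rw [← onCell_map, O.i0_gl, O.i0_gl]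
  · rw [← onCell_map, O.i1_gl, O.i1_gl]

theorem onCell_inv {X Y : InfGrpd G} (f : X ⟶ Y) (a : cell X 1) :
    onCell f (O.inv X a) = O.inv Y (onCell f a) := onCell_map f _ _

theorem onCell_one {X Y : InfGrpd G} (f : X ⟶ Y) (x : cell X 0) :
    onCell f (O.one X x) = O.one Y (onCell f x) := onCell_map f _ _

end Ops

end Pool.Agent.TH24.Glob
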