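import Pool.Agent.TH24.GlobMor

set_option autoImplicit false

open CategoryTheory Opposite

/-!
# Every object of a coherator is a globular sum
-/

namespace Pool.Agent.TH24.Glob

universe v u v' u' v'' u''

section

variable {C : Type u} [Category.{v} C] {G : Globe C} {E : Type u'} [Category.{v'} E] {H : Globe E}
  {E' : Type u''} [Category.{v''} E'] {H' : Globe E'}

/-- composition of morphisms of globular extensions -/
def Mor.comp (K : Mor G H) (L : Mor H H') : Mor G H' where
  F := K.F ⋙ L.F
  e i := L.F.mapIso (K.e i) ≪≫ L.e i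
  hσ i := by
    simp only [Functor.comp_map, Iso.trans_hom, Functor.mapIso_hom, Category.assoc,
      ← Functor.map_comp_assoc, K.hσ]
    simp [L.hσ]
  hτ i := by
    simp only [Functor.comp_map, Iso.trans_hom, Functor.mapIso_hom, Category.assoc,
      ← Functor.map_comp_assoc, K.hτ]
    simp [L.hτ]
  pres T X ι h := by
    have := L.pres T _ (K.pres T ι h)
    have e : (fun k => (L.F.mapIso (K.e (T.top k)) ≪≫ L.e (T.top k)).inv ≫
        (K.F ⋙ L.F).map (ι k)) = fun k => (L.e (T.top k)).inv ≫
        L.F.map ((K.e (T.top k)).inv ≫ K.F.map (ι k)) := by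
      funext k
      simp
    rw [e]
    exact this

/-- the property of being a globular sum -/
def IsGS (G : Globe C) : ObjectProperty C := fun X =>
  ∃ (T : Table) (ι : ∀ k, G.D (T.top k) ⟶ X), G.IsSum T ι

theorem IsGS.of_iso {X Y : C} (h : IsGS G X) (e : X ≅ Y) : IsGS G Y := by
  obtain ⟨T, ι, hι⟩ := h
  exact ⟨T, _, hι.of_iso e⟩

/-- the table of the disk `D i` -/
def Table.single (i : ℕ) : Table where
  m := 0
  top := fun _ => i
  bot := fun k => k.elim0
  lt_left := fun k => k.elim0
  lt_right := fun k => k.elim0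

theorem isSum_single (G : Globe C) (i : ℕ) : G.IsSum (Table.single i) (X := G.D i)
    (fun _ => 𝟙 (G.D i)) := by
  refine ⟨fun k => k.elim0, fun {Y} f _ => ⟨f 0, fun k => ?_, fun g hg => ?_⟩⟩
  · obtain rfl : k = 0 := Subsingleton.elim (α := Fin 1) _ _
    exact Category.id_comp _
  · rw [← hg 0]
    exact (Category.id_comp _).symm

theorem isGS_D (G : Globe C) (i : ℕ) : IsGS G (G.D i) := ⟨_, _, isSum_single G i⟩

/-- the globe in the full subcategory of globular sums -/
def subGlobe (G : Globe C) : Globe (IsGS G).FullSubcategory where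
  D i := ⟨G.D i, isGS_D G i⟩
  σ i := ObjectProperty.homMk (G.σ i)
  τ i := ObjectProperty.homMk (G.τ i)
  σσ i := ObjectProperty.hom_ext _ (G.σσ i)
  ττ i := ObjectProperty.hom_ext _ (G.ττ i)

theorem subGlobe_itσ (G : Globe C) {i j : ℕ} (h : i ≤ j) :
    ((subGlobe G).itσ h).hom = G.itσ h := by
  induction j, h using Nat.le_induction with
  | base => rw [Globe.itσ_refl, Globe.itσ_refl]; rfl
  | succ j h ih =>
    rw [Globe.itσ_succ G h, Globe.itσ_succ (subGlobe G) h, ObjectProperty.FullSubcategory.comp_hom,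
      ih]
    rfl

theorem subGlobe_itτ (G : Globe C) {i j : ℕ} (h : i ≤ j) :
    ((subGlobe G).itτ h).hom = G.itτ h := by
  induction j, h using Nat.le_induction with
  | base => rw [Globe.itτ_refl, Globe.itτ_refl]; rfl
  | succ j h ih =>
    rw [Globe.itτ_succ G h, Globe.itτ_succ (subGlobe G) h, ObjectProperty.FullSubcategory.comp_hom,
      ih]
    rfl

theorem subGlobe_compat (G : Globe C) {T : Table} {X : (IsGS G).FullSubcategory}
    (f : ∀ k, (subGlobe G).D (T.top k) ⟶ X) :
    (subGlobe G).Compat T f ↔ G.Compat T fun k => (f k).hom := by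
  refine forall_congr' fun k => ⟨fun h => ?_, fun h => ?_⟩
  · have := congrArg (fun a => InducedCategory.Hom.hom a) h
    simp only [ObjectProperty.FullSubcategory.comp_hom, subGlobe_itσ, subGlobe_itτ] at this
    exact this
  · apply ObjectProperty.hom_ext
    simp only [ObjectProperty.FullSubcategory.comp_hom, subGlobe_itσ, subGlobe_itτ]
    exact h

theorem subGlobe_isSum {T : Table} {X : (IsGS G).FullSubcategory}
    {f : ∀ k, (subGlobe G).D (T.top k) ⟶ X} (h : G.IsSum T fun k => (f k).hom) :
    (subGlobe G).IsSum T f := by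
  refine ⟨(subGlobe_compat G f).2 h.compat, fun {Y} g hg => ?_⟩
  obtain ⟨a, ha, ha'⟩ := h.desc (fun k => (g k).hom) ((subGlobe_compat G g).1 hg)
  refine ⟨ObjectProperty.homMk a, fun k => ObjectProperty.hom_ext _ (ha k), fun b hb => ?_⟩
  apply ObjectProperty.hom_ext
  exact ha' b.hom fun k => congrArg (fun a => InducedCategory.Hom.hom a) (hb k)

theorem subGlobe_isExtension (hG : G.IsExtension) : (subGlobe G).IsExtension := by
  intro T
  obtain ⟨X, ι, h⟩ := hG T
  exact ⟨⟨X, T, ι, h⟩, fun k => ObjectProperty.homMk (ι k), subGlobe_isSum h⟩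

/-- the inclusion of the subcategory of globular sums -/
def subMor (hG : G.IsExtension) : Mor (subGlobe G) G where
  F := (IsGS G).ι
  e i := Iso.refl _
  hσ i := by simp [subGlobe]
  hτ i := by simp [subGlobe]
  pres T X f hf := by
    obtain ⟨S, ι, h⟩ := hG T
    have h' : (subGlobe G).IsSum T (X := ⟨S, T, ι, h⟩) fun k => ObjectProperty.homMk (ι k) :=
      subGlobe_isSum h
    obtain ⟨a, ha⟩ := h'.exists_iso hf
    have := h.of_iso ((IsGS G).ι.mapIso a)
    convert this using 2 with k
    rw [← ha k]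
    simp [subGlobe]

/-- a morphism all of whose values are globular sums lifts to the subcategory -/
def Mor.lift (K : Mor G H) (hK : ∀ X, IsGS H (K.F.obj X)) : Mor G (subGlobe H) where
  F := (IsGS H).lift K.F hK
  e i := ObjectProperty.isoMk _ (K.e i)
  hσ i := ObjectProperty.hom_ext _ (K.hσ i)
  hτ i := ObjectProperty.hom_ext _ (K.hτ i)
  pres T X ι h := subGlobe_isSum (K.pres T ι h)

end

/-! ### moving to a larger universe -/

attribute [local instance] uliftCategory

section

variable {C : Type} [SmallCategory C] (G : Globe C)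

/-- the category `C` in the next universe -/
abbrev Big (C : Type) : Type 1 := ULift.{1} C

/-- the functor to the larger universe -/
abbrev up (C : Type) [SmallCategory C] : C ⥤ Big C := ULift.upFunctor.{0, 0, 1}

/-- the globe in `Big C` -/
def bigGlobe : Globe (Big C) where
  D i := ULift.up (G.D i)
  σ i := (up C).map (G.σ i)
  τ i := (up C).map (G.τ i)
  σσ i := G.σσ i
  ττ i := G.ττ i

theorem bigGlobe_itσ {i j : ℕ} (h : i ≤ j) :
    (bigGlobe G).itσ h = (up _).map (G.itσ h) := by
  induction j, h using Nat.le_induction with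
  | base =>
    rw [Globe.itσ_refl, Globe.itσ_refl]
    exact ((up _).map_id _).symm
  | succ j h ih =>
    rw [Globe.itσ_succ G h, Globe.itσ_succ (bigGlobe G) h, ih]
    exact ((up _).map_comp _ _).symm

theorem bigGlobe_itτ {i j : ℕ} (h : i ≤ j) :
    (bigGlobe G).itτ h = (up _).map (G.itτ h) := by
  induction j, h using Nat.le_induction with
  | base =>
    rw [Globe.itτ_refl, Globe.itτ_refl]
    exact ((up _).map_id _).symm
  | succ j h ih =>
    rw [Globe.itτ_succ G h, Globe.itτ_succ (bigGlobe G) h, ih]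
    exact ((up _).map_comp _ _).symm

variable {G}

theorem bigGlobe_compat {T : Table} {X : C} (f : ∀ k, G.D (T.top k) ⟶ X) :
    (bigGlobe G).Compat T (X := ULift.up X) (fun k => (up _).map (f k)) ↔
      G.Compat T f := by
  refine forall_congr' fun k => ?_
  rw [bigGlobe_itσ, bigGlobe_itτ]
  exact Iff.rfl

theorem bigGlobe_isSum {T : Table} {X : C} (f : ∀ k, G.D (T.top k) ⟶ X) :
    (bigGlobe G).IsSum T (X := ULift.up X) (fun k => (up _).map (f k)) ↔
      G.IsSum T f := by
  constructor
  · intro h
    refine ⟨(bigGlobe_compat f).1 h.compat, fun {Y} g hg => ?_⟩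
    exact h.desc (Y := ULift.up Y) (fun k => (up _).map (g k)) ((bigGlobe_compat g).2 hg)
  · intro h
    refine ⟨(bigGlobe_compat f).2 h.compat, fun {Y} g hg => ?_⟩
    exact h.desc (Y := Y.down) (fun k => g k) ((bigGlobe_compat (X := Y.down) fun k => g k).1 hg)

theorem bigGlobe_isExtension (hG : G.IsExtension) : (bigGlobe G).IsExtension := by
  intro T
  obtain ⟨X, ι, h⟩ := hG T
  exact ⟨ULift.up X, _, (bigGlobe_isSum ι).2 h⟩

theorem isGS_big {X : C} (h : IsGS (bigGlobe G) (ULift.up X)) : IsGS G X := by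
  obtain ⟨T, ι, h⟩ := h
  exact ⟨T, fun k => ι k, (bigGlobe_isSum (fun k => ι k)).1 h⟩

theorem isGS_big' {X : C} (h : IsGS G X) : IsGS (bigGlobe G) (ULift.up X) := by
  obtain ⟨T, ι, h⟩ := h
  exact ⟨T, fun k => (up _).map (ι k), (bigGlobe_isSum (fun k => ι k)).2 h⟩

/-- the morphism to the larger universe -/
def bigMor (G : Globe C) : Mor G (bigGlobe G) where
  F := (up _)
  e i := Iso.refl _
  hσ i := (Category.comp_id _).trans (Category.id_comp _).symm
  hτ i := (Category.comp_id _).trans (Category.id_comp _).symm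
  pres T X ι h := by
    have := (bigGlobe_isSum ι).2 h
    have e : (fun k => (Iso.refl ((bigGlobe G).D (T.top k))).inv ≫ (up _).map (ι k)) =
        fun k => (up _).map (ι k) := by
      funext k
      exact Category.id_comp _
    rw [← e] at this
    exact this

end

section

variable {C : Type} [SmallCategory C] {G : Globe C} {C' : Type} [SmallCategory C'] {G' : Globe C'}

/-- all objects of the universal globular extension are globular sums -/
theorem isGS_universal (h : IsUniversalExtension G) (X : C) : IsGS G X := by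
  have hE := subGlobe_isExtension (bigGlobe_isExtension h.1)
  obtain ⟨⟨r⟩, -⟩ := h.2 _ (subGlobe (bigGlobe G)) hE
  obtain ⟨-, huniq⟩ := h.2 _ (bigGlobe G) (bigGlobe_isExtension h.1)
  obtain ⟨α, -, -⟩ := huniq (r.comp (subMor (bigGlobe_isExtension h.1))) (bigMor G)
  exact isGS_big (((r.F.obj X).property).of_iso (α.app X))

theorem imageLifting_big (J : Mor G G') (p : G.Pair) (h : G'.D (p.i + 1) ⟶ J.F.obj p.X)
    (hh : IsImageLifting J p h) : IsImageLifting (J.comp (bigMor G')) p ((up C').map h) := by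
  refine ⟨?_, ?_⟩
  · change (up C').map (G'.σ p.i) ≫ (up C').map h =
      (𝟙 _ ≫ (up C').map (J.e p.i).inv) ≫ (up C').map (J.F.map p.f)
    rw [Category.id_comp]
    exact hh.1
  · change (up C').map (G'.τ p.i) ≫ (up C').map h =
      (𝟙 _ ≫ (up C').map (J.e p.i).inv) ≫ (up C').map (J.F.map p.g)
    rw [Category.id_comp]
    exact hh.2

/-- all objects of a free extension are globular sums if this holds for the base -/
theorem isGS_step (J : Mor G G') (hJ : IsFreeStep J) (hG' : G'.IsExtension)
    (hG : ∀ X, IsGS G X) (X : C') : IsGS G' X := by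
  obtain ⟨I, p, h, hh, huniv⟩ := hJ
  have hE := subGlobe_isExtension (bigGlobe_isExtension hG')
  -- the image of a globular sum is a globular sum
  have hJX : ∀ X, IsGS (bigGlobe G') ((J.comp (bigMor G')).F.obj X) := by
    intro X
    obtain ⟨T, ι, hι⟩ := hG X
    exact ⟨T, _, (J.comp (bigMor G')).pres T ι hι⟩
  let K := (J.comp (bigMor G')).lift hJX
  let l : ∀ a, (subGlobe (bigGlobe G')).D ((p a).i + 1) ⟶ K.F.obj (p a).X := fun a =>
    ObjectProperty.homMk ((up C').map (h a))
  have hbig := fun a => imageLifting_big J (p a) (h a) (hh a)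
  have hl : ∀ a, IsImageLifting K (p a) (l a) := fun a =>
    ⟨ObjectProperty.hom_ext _ (hbig a).1, ObjectProperty.hom_ext _ (hbig a).2⟩
  obtain ⟨⟨K', α, hα⟩, -⟩ := huniv _ _ hE K l hl
  have hK' : IsExtensionOf J p h (J.comp (bigMor G')) (fun a => (up C').map (h a))
      (K'.comp (subMor (bigGlobe_isExtension hG')))
      ((Functor.associator _ _ _).symm ≪≫ Functor.isoWhiskerRight α (IsGS (bigGlobe G')).ι) := by
    refine ⟨fun i => ?_, fun a => ?_⟩
    · have h1 := congrArg (fun a => InducedCategory.Hom.hom a) (hα.1 i)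
      change (𝟙 _ ≫ (α.hom.app (G.D i)).hom) ≫ ((J.comp (bigMor G')).e i).hom =
        (K'.F.map (J.e i).hom).hom ≫ ((K'.e i).hom.hom ≫ 𝟙 _)
      rw [Category.id_comp, Category.comp_id]
      exact h1
    · have h1 := congrArg (fun a => InducedCategory.Hom.hom a) (hα.2 a)
      change (up C').map (h a) = (𝟙 _ ≫ (K'.e _).inv.hom) ≫ (K'.F.map (h a)).hom ≫
        (𝟙 _ ≫ (α.hom.app (p a).X).hom)
      rw [Category.id_comp, Category.id_comp]
      exact h1
  have hB : IsExtensionOf J p h (J.comp (bigMor G')) (fun a => (up C').map (h a))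
      (bigMor G') (Iso.refl _) := by
    refine ⟨fun i => ?_, fun a => ?_⟩
    · exact Category.id_comp _
    · exact ((Category.id_comp _).trans (Category.comp_id _)).symm
  obtain ⟨-, huniq⟩ := huniv _ _ (bigGlobe_isExtension hG') (J.comp (bigMor G'))
    (fun a => (up C').map (h a)) hbig
  obtain ⟨β, -, -⟩ := huniq _ _ _ _ hK' hB
  exact isGS_big (((K'.F.obj X).property).of_iso (β.app X))

/-- all objects of the colimit are globular sums if this holds for the stages -/
theorem isGS_colimit {Cn : ℕ → Type} [∀ n, SmallCategory (Cn n)] {Gn : ∀ n, Globe (Cn n)}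
    (J : ∀ n, Mor (Gn n) (Gn (n + 1))) (I : ∀ n, Mor (Gn n) G)
    (β : ∀ n, (J n).F ⋙ (I (n + 1)).F ≅ (I n).F)
    (h : IsTowerColimit (fun n => (J n).F) (fun n => (I n).F) β)
    (hn : ∀ n X, IsGS (Gn n) X) (X : C) : IsGS G X := by
  have hI : ∀ n X, IsGS (bigGlobe G) (((I n).F ⋙ up C).obj X) := by
    intro n X
    obtain ⟨T, ι, hι⟩ := hn n X
    exact ⟨T, _, ((I n).comp (bigMor G)).pres T ι hι⟩
  -- the functors to the subcategory of globular sums
  let P := IsGS (bigGlobe G)
  let K : ∀ n, Cn n ⥤ P.FullSubcategory := fun n => P.lift ((I n).F ⋙ up C) (hI n)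
  let γ : ∀ n, (J n).F ⋙ K (n + 1) ≅ K n := fun n =>
    NatIso.ofComponents (fun X => ObjectProperty.isoMk _ ((up C).mapIso ((β n).app X)))
      (fun f => ObjectProperty.hom_ext _ ((β n).hom.naturality f))
  obtain ⟨⟨L, δ, hδ⟩, -⟩ := h _ K γ
  obtain ⟨-, huniq⟩ := h (Big C) (fun n => (I n).F ⋙ up C)
    (fun n => (Functor.associator _ _ _).symm ≪≫ Functor.isoWhiskerRight (β n) (up C))
  obtain ⟨ε, -, -⟩ := huniq (L ⋙ P.ι) (fun n => (Functor.associator _ _ _).symm ≪≫
      Functor.isoWhiskerRight (δ n) P.ι) (up C) (fun n => Iso.refl _) (by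
        intro n X
        have h1 := congrArg (fun a => InducedCategory.Hom.hom a) (hδ n X)
        change (L.map ((β n).hom.app X)).hom ≫ (𝟙 _ ≫ ((δ n).hom.app X).hom) =
          (𝟙 _ ≫ ((δ (n + 1)).hom.app ((J n).F.obj X)).hom) ≫
            (𝟙 _ ≫ (up C).map ((β n).hom.app X))
        simp only [Category.id_comp]
        exact h1) (by
        intro n X
        change (up C).map ((β n).hom.app X) ≫ 𝟙 _ = 𝟙 _ ≫ (𝟙 _ ≫ (up C).map ((β n).hom.app X))
        simp only [Category.id_comp, Category.comp_id])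
  exact isGS_big (((L.obj X).property).of_iso (ε.app X))

/-- **Every object of a coherator is a globular sum.** -/
theorem isGS_coherator (hG : IsCoherator G) (X : C) : IsGS G X := by
  obtain ⟨Cn, instC, Gn, J, I, β, h0, hext, hstep, hβ, hcol⟩ := hG.tower
  refine isGS_colimit J I β hcol (fun n => ?_) X
  induction n with
  | zero => exact isGS_universal h0
  | succ n ih => exact isGS_step (J n) (hstep n) (hext _) ih

end

end Pool.Agent.TH24.Glob
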