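import Pool.Agent.TH24.GlobGpd
import Pool.Agent.TH24.GlobMor

set_option autoImplicit false

open CategoryTheory Opposite

/-!
# Disks, weak homotopy equivalences, the fundamental `∞`-groupoid and the classifying space
-/

namespace Pool.Agent.TH24.Glob

/-- the closed unit disk in `ℝⁱ` -/
abbrev Disk (i : ℕ) : Type := {x : Fin i → ℝ // ∑ j, x j ^ 2 ≤ 1}

/-- the map `x ↦ (x, ε √(1 - ‖x‖²))` -/
noncomputable def diskMap (ε : ℝ) (hε : ε ^ 2 = 1) (i : ℕ) (x : Disk i) : Disk (i + 1) :=
  ⟨Fin.snoc x.1 (ε * Real.sqrt (1 - ∑ j, x.1 j ^ 2)), by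
    rw [Fin.sum_univ_castSucc]
    simp only [Fin.snoc_castSucc, Fin.snoc_last, mul_pow, hε, one_mul]
    rw [Real.sq_sqrt (sub_nonneg.2 x.2)]
    simp⟩

theorem continuous_diskMap (ε : ℝ) (hε : ε ^ 2 = 1) (i : ℕ) : Continuous (diskMap ε hε i) := by
  refine Continuous.subtype_mk ?_ _
  refine continuous_pi fun j => ?_
  refine Fin.lastCases ?_ (fun j => ?_) j
  · simp only [Fin.snoc_last]
    refine continuous_const.mul (Real.continuous_sqrt.comp (continuous_const.sub ?_))
    exact continuous_finsetSum _ fun k _ => ((continuous_apply k).comp continuous_subtype_val).pow 2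
  · simp only [Fin.snoc_castSucc]
    exact (continuous_apply j).comp continuous_subtype_val

theorem diskMap_diskMap (ε δ δ' : ℝ) (hε : ε ^ 2 = 1) (hδ : δ ^ 2 = 1) (hδ' : δ' ^ 2 = 1) (i : ℕ)
    (x : Disk i) :
    diskMap δ hδ (i + 1) (diskMap ε hε i x) = diskMap δ' hδ' (i + 1) (diskMap ε hε i x) := by
  have h : 1 - ∑ j, (diskMap ε hε i x).1 j ^ 2 = 0 := by
    rw [Fin.sum_univ_castSucc]
    simp only [diskMap, Fin.snoc_castSucc, Fin.snoc_last, mul_pow, hε, one_mul]
    rw [Real.sq_sqrt (sub_nonneg.2 x.2)]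
    ring
  apply Subtype.ext
  change Fin.snoc (diskMap ε hε i x).1 (δ * Real.sqrt (1 - ∑ j, (diskMap ε hε i x).1 j ^ 2)) =
    (Fin.snoc (diskMap ε hε i x).1 (δ' * Real.sqrt (1 - ∑ j, (diskMap ε hε i x).1 j ^ 2)) :
      Fin (i + 1 + 1) → ℝ)
  rw [h]
  simp

/-- The functor `𝔾 → Top` sending `D_i` to the closed unit disk in `ℝⁱ`, with
`σ(x) = (x, -√(1 - ‖x‖²))` and `τ(x) = (x, √(1 - ‖x‖²))`. -/
noncomputable def disks : Globe TopCat.{0} where
  D i := TopCat.of (Disk i)
  σ i := TopCat.ofHom ⟨diskMap (-1) (by norm_num) i, continuous_diskMap _ _ i⟩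
  τ i := TopCat.ofHom ⟨diskMap 1 (by norm_num) i, continuous_diskMap _ _ i⟩
  σσ i := by
    ext x : 1
    exact diskMap_diskMap (-1) (-1) 1 (by norm_num) (by norm_num) (by norm_num) i x
  ττ i := by
    ext x : 1
    exact diskMap_diskMap 1 (-1) 1 (by norm_num) (by norm_num) (by norm_num) i x

/-! ### weak homotopy equivalences -/

section

variable {X Y : Type} [TopologicalSpace X] [TopologicalSpace Y]

/-- the map induced on generalized loops -/
def genLoopMap (f : C(X, Y)) (N : Type) (x : X) (γ : GenLoop N X x) : GenLoop N Y (f x) :=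
  ⟨f.comp γ.1, fun y hy => congrArg f (γ.2 y hy)⟩

theorem genLoopMap_homotopic (f : C(X, Y)) (N : Type) (x : X) {γ δ : GenLoop N X x}
    (h : GenLoop.Homotopic γ δ) : GenLoop.Homotopic (genLoopMap f N x γ) (genLoopMap f N x δ) :=
  h.comp_continuousMap f

/-- the map induced on homotopy groups -/
def homotopyGroupMap (f : C(X, Y)) (N : Type) (x : X) :
    HomotopyGroup N X x → HomotopyGroup N Y (f x) :=
  Quotient.map' (genLoopMap f N x) fun _ _ h => genLoopMap_homotopic f N x h

/-- the map induced on the sets of path components -/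
def zerothMap (f : C(X, Y)) : ZerothHomotopy X → ZerothHomotopy Y :=
  Quotient.map' f fun _ _ h => h.map f.continuous

end

/-- The weak homotopy equivalences: the maps which induce bijections on path components and on
all homotopy groups. -/
def weakHomotopyEq : MorphismProperty TopCat.{0} := fun X _ f =>
  Function.Bijective (zerothMap f.hom) ∧
    ∀ (n : ℕ) (x : X), Function.Bijective (homotopyGroupMap f.hom (Fin (n + 1)) x)

/-! ### the two functors -/

variable {C : Type} [SmallCategory C] {G : Globe C}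

theorem isInfGroupoid_hom {E : Type 1} [Category.{0} E] {H : Globe E} (K : Mor G H) (Y : E) :
    IsInfGroupoid G (K.F.op ⋙ yoneda.obj Y) := by
  intro T S ι hS x hx
  have h := K.pres T ι hS
  have key : ∀ k, ∀ g : K.F.obj S ⟶ Y, ((K.e (T.top k)).inv ≫ K.F.map (ι k)) ≫ g =
      (K.e (T.top k)).inv ≫ x k ↔ K.F.map (ι k) ≫ g = x k := by
    intro k g
    rw [Category.assoc, Iso.cancel_iso_inv_left]
  obtain ⟨g, hg, hg'⟩ := h.desc (fun k => (K.e (T.top k)).inv ≫ x k) (by
    intro k
    have h1 : K.F.map (G.itσ (T.lt_left k).le) ≫ x k.castSucc =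
      K.F.map (G.itτ (T.lt_right k).le) ≫ x k.succ := hx k
    rw [← Category.assoc, ← Category.assoc, K.map_itσ, K.map_itτ, Category.assoc, Category.assoc,
      h1])
  exact ⟨g, fun k => (key k g).1 (hg k), fun g' h' => hg' g' fun k => (key k g').2 (h' k)⟩

/-- The fundamental `∞`-groupoid functor `X ↦ Hom(F(-), X)`. -/
def fundamental (F : Mor G disks) : TopCat.{0} ⥤ InfGrpd G :=
  ObjectProperty.lift _ (yoneda ⋙ (Functor.whiskeringLeft _ _ _).obj F.F.op)
    fun X => isInfGroupoid_hom F X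

/-- The classifying space functor: the colimit-preserving extension of `F` to presheaves,
restricted to `∞`-`C`-groupoids. -/
noncomputable def classifying (F : Mor G disks) : InfGrpd G ⥤ TopCat.{0} :=
  (IsInfGroupoid G).ι ⋙ (uliftYoneda.{0}).leftKanExtension F.F

/-- The functors `R` and `P` carry weak equivalences to weak equivalences, and the functors they
induce between the localised categories are mutually quasi-inverse equivalences. -/
def InduceEquivalence {A B : Type 1} [Category.{0} A] [Category.{0} B]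
    (WA : MorphismProperty A) (WB : MorphismProperty B) (R : A ⥤ B) (P : B ⥤ A) : Prop :=
  (∀ ⦃X Y : A⦄ (f : X ⟶ Y), WA f → WB (R.map f)) ∧
  (∀ ⦃X Y : B⦄ (f : X ⟶ Y), WB f → WA (P.map f)) ∧
  ∃ (R' : WA.Localization ⥤ WB.Localization) (P' : WB.Localization ⥤ WA.Localization),
    Nonempty (WA.Q ⋙ R' ≅ R ⋙ WB.Q) ∧ Nonempty (WB.Q ⋙ P' ≅ P ⋙ WA.Q) ∧
    Nonempty (R' ⋙ P' ≅ 𝟭 _) ∧ Nonempty (P' ⋙ R' ≅ 𝟭 _)

end Pool.Agent.TH24.Glob
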