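import Pool.Agent.TH24.GlobBA
import Pool.Agent.TH24.GlobTop
import Pool.Agent.TH24.GlobSub

set_option autoImplicit false

open CategoryTheory Opposite

/-!
# The classifying space of `BA` is a point
-/

namespace Pool.Agent.TH24.Glob

variable {C : Type} [SmallCategory C] {G : Globe C}

/-! ### the values of a cocycle -/

section val

variable (P : Mor G V)

/-- the point of `V(D_0)` -/
def v0 : V.D 0 := PUnit.unit

/-- the point of `P(D_0)` -/
def pt0 : P.F.obj (G.D 0) := (P.e 0).inv v0

/-- the source point of `P(D_1)` -/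
def ptσ : P.F.obj (G.D 1) := P.F.map (G.σ 0) (pt0 P)

/-- the target point of `P(D_1)` -/
def ptτ : P.F.obj (G.D 1) := P.F.map (G.τ 0) (pt0 P)

theorem P_map_map {R S T : C} (u : R ⟶ S) (v : S ⟶ T) (x : P.F.obj R) :
    P.F.map v (P.F.map u x) = P.F.map (u ≫ v) x := by
  rw [P.F.map_comp, types_comp_apply]

theorem e_inv_hom (i : ℕ) (x : P.F.obj (G.D i)) : (P.e i).inv ((P.e i).hom x) = x := by
  rw [← types_comp_apply, Iso.hom_inv_id, types_id_apply]

theorem e_hom_inv (i : ℕ) (x : V.D i) : (P.e i).hom ((P.e i).inv x) = x := by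
  rw [← types_comp_apply, Iso.inv_hom_id, types_id_apply]

theorem P_zero (x y : P.F.obj (G.D 0)) : x = y := by
  rw [← e_inv_hom P 0 x, ← e_inv_hom P 0 y]
  congr 1

theorem e_ptσ : (P.e 1).hom (ptσ P) = false := by
  have := ConcreteCategory.congr_hom (P.hσ 0) (pt0 P)
  rw [types_comp_apply, types_comp_apply, pt0, e_hom_inv] at this
  exact this

theorem e_ptτ : (P.e 1).hom (ptτ P) = true := by
  have := ConcreteCategory.congr_hom (P.hτ 0) (pt0 P)
  rw [types_comp_apply, types_comp_apply, pt0, e_hom_inv] at this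
  exact this

theorem pt_cases (x : P.F.obj (G.D 1)) : x = ptσ P ∨ x = ptτ P := by
  rcases h : (P.e 1).hom x with _ | _
  · left
    rw [← e_inv_hom P 1 x, ← e_inv_hom P 1 (ptσ P), h, e_ptσ]
  · right
    rw [← e_inv_hom P 1 x, ← e_inv_hom P 1 (ptτ P), h, e_ptτ]

variable {A : Type} [Group A] {P}

/-- an element of `BA(S)` as a cocycle -/
def coc {S : C} (z : (BA A P).obj.obj (op S)) : Coc A (P.F.obj S) := z

theorem coc_map {S S' : C} (f : S ⟶ S') (z : (BA A P).obj.obj (op S')) (x y : P.F.obj S) :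
    (coc ((BA A P).obj.map f.op z)).c x y = (coc z).c (P.F.map f x) (P.F.map f y) := rfl

theorem coc_ext {S : C} {z w : (BA A P).obj.obj (op S)}
    (h : ∀ x y, (coc z).c x y = (coc w).c x y) : z = w :=
  Coc.ext' (X := P.F.obj S) h

/-- the value of a `1`-cell of `BA` -/
def val (e : cell (BA A P) 1) : A := (coc e).c (ptσ P) (ptτ P)

theorem val_homotopic {a b : cell (BA A P) 1} (h : Homotopic (BA A P) a b) : val a = val b := by
  obtain ⟨k, rfl, rfl⟩ := h
  rw [val, val, src, tgt, coc_map, coc_map, ptσ, ptτ, P_map_map, P_map_map, P_map_map, P_map_map,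
    G.σσ, G.ττ]

theorem val_cmp (O : Ops G) (a b : cell (BA A P) 1) (h : src _ a = tgt _ b) :
    val (O.cmp (BA A P) a b h) = val b * val a := by
  have h0 := O.i0_gl (BA A P) a b h
  have h1 := O.i1_gl (BA A P) a b h
  have e0 : val b = (coc (O.gl (BA A P) a b h)).c (P.F.map (G.σ 0 ≫ O.B.i1) (pt0 P))
      (P.F.map (G.τ 0 ≫ O.B.i1) (pt0 P)) := by
    conv_lhs => rw [← h1]
    rw [val, coc_map, ptσ, ptτ, P_map_map, P_map_map]
  have e1 : val a = (coc (O.gl (BA A P) a b h)).c (P.F.map (G.σ 0 ≫ O.B.i0) (pt0 P))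
      (P.F.map (G.τ 0 ≫ O.B.i0) (pt0 P)) := by
    conv_lhs => rw [← h0]
    rw [val, coc_map, ptσ, ptτ, P_map_map, P_map_map]
  rw [e0, e1, O.comm, Coc.mul, val, Ops.cmp, coc_map, ptσ, ptτ, P_map_map, P_map_map, O.σm, O.τm]

theorem coc_swap (c : cell (BA A P) 1) : (coc c).c (ptτ P) (ptσ P) = (val c)⁻¹ := by
  have := (coc c).mul (ptτ P) (ptσ P) (ptτ P)
  rw [Coc.self (coc c)] at this
  exact eq_inv_of_mul_eq_one_left this

theorem val_injective {a b : cell (BA A P) 1} (h : val a = val b) : a = b := by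
  apply coc_ext
  intro x y
  rcases pt_cases P x with rfl | rfl <;> rcases pt_cases P y with rfl | rfl
  · rw [Coc.self (coc a), Coc.self (coc b)]
  · exact h
  · rw [coc_swap, coc_swap, h]
  · rw [Coc.self (coc a), Coc.self (coc b)]

theorem cell_zero (a b : cell (BA A P) 0) : a = b := by
  apply coc_ext
  intro x y
  rw [P_zero P x y, Coc.self (coc a), Coc.self (coc b)]

theorem exists_val (g : A) : ∃ a : cell (BA A P) 1, val a = g := by
  refine ⟨Coc.ofPot (X := P.F.obj (G.D 1)) fun x => bif (P.e 1).hom x then g else 1, ?_⟩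
  change (bif (P.e 1).hom (ptσ P) then g else 1)⁻¹ * (bif (P.e 1).hom (ptτ P) then g else 1) = g
  rw [e_ptσ, e_ptτ]
  simp

/-- the trivial cocycle on `D_0` -/
def z0 : cell (BA A P) 0 := Coc.ofPot (X := P.F.obj (G.D 0)) fun _ => 1

theorem val_one (O : Ops G) (x : cell (BA A P) 0) : val (O.one (BA A P) x) = 1 := by
  rw [val, Ops.one, coc_map, P_zero P (P.F.map O.k (ptσ P)) (P.F.map O.k (ptτ P))]
  exact Coc.self (coc x) _

end val

/-! ### loops in `BA` -/

section loops

variable {A : Type} [CommGroup A] {P : Mor G V} (hG : IsCoherator G) (O : Ops G)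

/-- the value of an arrow of the fundamental groupoid -/
def valHom {x y : cell (BA A P) 0} : Pi1Hom (BA A P) x y → A :=
  Quot.lift (fun a => val a.1) fun _ _ h => val_homotopic h

theorem valHom_comp {x y z : cell (BA A P) 0} (f : Pi1Hom (BA A P) x y)
    (g : Pi1Hom (BA A P) y z) :
    valHom (pi1Comp hG O (BA A P) x y z f g) = valHom f * valHom g := by
  induction f using Quot.ind with | mk f => ?_
  induction g using Quot.ind with | mk g => ?_
  exact val_cmp O _ _ _

/-- the value of a free loop -/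
def valLoops : Loops (Pi1 hG O (BA A P)) → A :=
  Quot.lift (fun a => valHom (x := a.1.pt) (y := a.1.pt) a.2) (by
    rintro ⟨x, a⟩ ⟨y, b⟩ ⟨p, hp⟩
    have h1 := congrArg (fun f => valHom (x := x.pt) (y := y.pt) f) hp
    have h2 := valHom_comp hG O (x := x.pt) (y := x.pt) (z := y.pt) a p
    have h3 := valHom_comp hG O (x := x.pt) (y := y.pt) (z := y.pt) p b
    have h4 := (h2.symm.trans h1).trans h3
    dsimp only
    rw [mul_comm] at h4
    exact mul_left_cancel h4)

theorem valLoops_surjective : Function.Surjective (valLoops (A := A) (P := P) hG O) := by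
  intro g
  obtain ⟨a, rfl⟩ := exists_val (P := P) g
  exact ⟨Quot.mk _ ⟨⟨src _ a⟩, Quot.mk _ ⟨a, rfl, cell_zero _ _⟩⟩, rfl⟩

end loops

/-! ### globular sums of spaces -/

/-- the indiscrete space with two points -/
def indisc : TopCat.{0} := @TopCat.of Bool ⊤

/-- maps to the indiscrete space with two points -/
def toIndisc {X : TopCat.{0}} (f : X → Bool) : X ⟶ indisc :=
  @TopCat.ofHom X Bool _ ⊤ (@ContinuousMap.mk X Bool _ ⊤ f continuous_top)

theorem toIndisc_apply {X : TopCat.{0}} (f : X → Bool) (x : X) : toIndisc f x = f x := rfl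

theorem top_sum_surjective {H : Globe TopCat.{0}} {T : Table} {X : TopCat.{0}}
    {j : ∀ k, H.D (T.top k) ⟶ X} (h : H.IsSum T j) (x : X) : ∃ k y, j k y = x := by
  classical
  obtain ⟨w, -, hw⟩ := h.desc (Y := indisc) (fun k => j k ≫ toIndisc fun _ => true) (by
    intro k
    rw [← Category.assoc, ← Category.assoc, h.compat k])
  have h1 := hw (toIndisc fun _ => true) (fun k => rfl)
  have h2 := hw (toIndisc fun x => decide (∃ k y, j k y = x)) (fun k => by
    ext y
    change decide (∃ k' y', j k' y' = j k y) = true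
    rw [decide_eq_true_eq]
    exact ⟨k, y, rfl⟩)
  have h4 : decide (∃ k y, j k y = x) = true :=
    ConcreteCategory.congr_hom (h2.trans h1.symm) x
  rwa [decide_eq_true_eq] at h4

/-! ### the classifying space -/

section classify

variable {A : Type} [Group A] {P : Mor G V} (hG : IsCoherator G) (F : Mor G disks)

theorem F_zero (x y : F.F.obj (G.D 0)) : x = y := by
  have h1 : ∀ x : F.F.obj (G.D 0), (F.e 0).inv ((F.e 0).hom x) = x := fun x => by
    rw [← TopCat.comp_app, Iso.hom_inv_id]; rfl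
  rw [← h1 x, ← h1 y]
  congr 1
  exact Subtype.ext (Subsingleton.elim _ _)

/-- the family of maps given by a natural transformation to `Hom(F(-), Y)` -/
def evalAt {X : Cᵒᵖ ⥤ Type} {Y : TopCat.{0}}
    (α : X ⟶ (Presheaf.restrictedULiftYoneda.{0} F.F).obj Y) (S : C) (z : X.obj (op S)) :
    F.F.obj S ⟶ Y := (α.app (op S) z).down

theorem evalAt_map {X : Cᵒᵖ ⥤ Type} {Y : TopCat.{0}}
    (α : X ⟶ (Presheaf.restrictedULiftYoneda.{0} F.F).obj Y) {S S' : C} (f : S ⟶ S')
    (z : X.obj (op S')) : evalAt F α S (X.map f.op z) = F.F.map f ≫ evalAt F α S' z :=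
  congrArg ULift.down (NatTrans.naturality_apply α f.op z)

theorem evalAt_map_apply {X : Cᵒᵖ ⥤ Type} {Y : TopCat.{0}}
    (α : X ⟶ (Presheaf.restrictedULiftYoneda.{0} F.F).obj Y) {S S' : C} (f : S ⟶ S')
    (z : X.obj (op S')) (x : F.F.obj S) :
    evalAt F α S (X.map f.op z) x = evalAt F α S' z (F.F.map f x) := by
  rw [evalAt_map, TopCat.comp_app]

/-- a point of `F(D_0)` -/
noncomputable def x0 : F.F.obj (G.D 0) := (F.e 0).inv (⟨0, by simp⟩ : Disk 0)

include hG in
theorem eval_const {Y : TopCat.{0}}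
    (α : (BA A P).obj ⟶ (Presheaf.restrictedULiftYoneda.{0} F.F).obj Y) (S : C)
    (z : (BA A P).obj.obj (op S)) (x : F.F.obj S) :
    evalAt F α S z x = evalAt F α (G.D 0) z0 (x0 F) := by
  obtain ⟨O⟩ := exists_ops hG
  -- dimension zero
  have s0 : ∀ (z : cell (BA A P) 0) (x : F.F.obj (G.D 0)),
      evalAt F α (G.D 0) z x = evalAt F α (G.D 0) z0 (x0 F) := by
    intro z x
    rw [cell_zero z z0, F_zero F x (x0 F)]
  -- units
  have su : ∀ (z : cell (BA A P) 0) (x : F.F.obj (G.D 1)),
      evalAt F α (G.D 1) (O.one (BA A P) z) x = evalAt F α (G.D 0) z0 (x0 F) := by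
    intro z x
    rw [Ops.one, evalAt_map_apply, s0]
  -- dimension one
  have s1 : ∀ (z : cell (BA A P) 1) (x : F.F.obj (G.D 1)),
      evalAt F α (G.D 1) z x = evalAt F α (G.D 0) z0 (x0 F) := by
    intro z x
    -- the two decompositions of `z`
    have e1 : O.cmp (BA A P) (O.one _ (tgt _ z)) z (O.src_one _ _) = z :=
      val_injective (by rw [val_cmp, val_one, mul_one])
    have e2 : O.cmp (BA A P) z (O.one _ (src _ z)) (O.tgt_one _ _).symm = z :=
      val_injective (by rw [val_cmp, val_one, one_mul])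
    -- the image of `x` is in one of the two disks
    obtain ⟨k, y, hy⟩ := top_sum_surjective (F.pres _ O.B.ι O.B.isSum) (F.F.map O.m x)
    match k, y, hy with
    | ⟨0, _⟩, y, hy =>
      have hy' : F.F.map O.B.i0 ((F.e 1).inv y) = F.F.map O.m x := by
        rw [← O.B.ι0]
        exact hy
      rw [← e1, Ops.cmp, evalAt_map_apply, ← hy', ← evalAt_map_apply, O.i0_gl]
      exact su _ _
    | ⟨1, _⟩, y, hy =>
      have hy' : F.F.map O.B.i1 ((F.e 1).inv y) = F.F.map O.m x := by
        rw [← O.B.ι1]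
        exact hy
      rw [← e2, Ops.cmp, evalAt_map_apply, ← hy', ← evalAt_map_apply, O.i1_gl]
      exact su _ _
  -- higher dimensions
  have sn : ∀ (i : ℕ) (z : cell (BA A P) (i + 1)) (x : F.F.obj (G.D (i + 1))),
      evalAt F α (G.D (i + 1)) z x = evalAt F α (G.D 0) z0 (x0 F) := by
    intro i
    induction i with
    | zero => exact s1
    | succ i ih =>
      intro z x
      obtain ⟨κ, hκ, -⟩ := hG.lift (𝟙 (G.D (i + 1))) (𝟙 (G.D (i + 1))) ⟨rfl, rfl⟩
      have hz : z = (BA A P).obj.map κ.op ((BA A P).obj.map (G.σ (i + 1)).op z) := by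
        apply coc_ext
        have key : ∀ x : P.F.obj (G.D (i + 2)),
            P.F.map (G.σ (i + 1)) (P.F.map κ x) = x := by
          intro x
          obtain ⟨w, rfl⟩ : ∃ w, P.F.map (G.σ (i + 1)) w = x := by
            refine ⟨(P.e (i + 1)).inv ((P.e (i + 2)).hom x), ?_⟩
            have h1 : ∀ w, (P.e (i + 2)).hom (P.F.map (G.σ (i + 1)) w) = (P.e (i + 1)).hom w :=
              fun w => ConcreteCategory.congr_hom (P.hσ (i + 1)) w
            have h2 := (h1 ((P.e (i + 1)).inv ((P.e (i + 2)).hom x))).trans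
              (e_hom_inv P (i + 1) ((P.e (i + 2)).hom x))
            have h3 := congrArg (P.e (i + 2)).inv h2
            exact (e_inv_hom P (i + 2) _).symm.trans (h3.trans (e_inv_hom P (i + 2) x))
          rw [P_map_map, P_map_map, ← Category.assoc, hκ, Category.id_comp]
        intro x y
        rw [coc_map, coc_map, key, key]
      rw [hz, evalAt_map_apply]
      exact ih _ _
  have sn' : ∀ (i : ℕ) (z : cell (BA A P) i) (x : F.F.obj (G.D i)),
      evalAt F α (G.D i) z x = evalAt F α (G.D 0) z0 (x0 F) := by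
    intro i
    cases i with
    | zero => exact s0
    | succ i => exact sn i
  obtain ⟨T, ι, hι⟩ := isGS_coherator hG S
  obtain ⟨k, y, hy⟩ := top_sum_surjective (F.pres T ι hι) x
  rw [← hy, TopCat.comp_app, ← evalAt_map_apply]
  exact sn' _ _ _

end classify

end Pool.Agent.TH24.Glob
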